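import Pool.Agent.T6.H5.MX.LI

/-! # Counts and prime sums, outside a very small exceptional set -/

set_option autoImplicit false

namespace Pool.Agent.T6.H5.TL

open Filter Topology MeasureTheory Set
open Pool.Agent.Y743.CL (VS VS_nonneg XK)
open Pool.Agent.R320.JL (PP PP_cont nz ze)
open Pool.Agent.TH850.UV (Db XT)
open SG (NZ)
open SP (RHs Mk Q1)
open Pool.Agent.T6.H5.MX

noncomputable section

/-- the deterministic step -/
lemma det2 {T l h t a x y w V CJ M1 M2 P C3 : ℝ} (hT : 1 ≤ T) (h1 : x ≤ y) (h3 : y ≤ w)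
    {D NZd : ℝ}
    (hpw : |NZd - a + D| ≤ 1 + CJ * (M1 + M2))
    (hDb : |D - (PP (ze l h) (XK w T) t).re| ≤ P + (C3 + 1))
    (b1 : ‖PP (ze l h) (XK x T) t‖ ≤ V) (b2 : P ≤ V)
    (b5 : ‖BB l T y w t‖ ≤ V) (b6 : ‖BB l T y w (t + h)‖ ≤ V)
    (b8 : CJ * (M1 + M2) ≤ V) (b9 : C3 + 2 ≤ V) :
    |NZd - a - ((BB l T x y (t + h)).im - (BB l T x y t).im)| ≤ 6 * V := by
  have e1 := PP_ze (l := l) (h := h) hT (h1.trans h3) t
  have e2 := fun s => BB_split (l := l) hT h1 h3 s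
  rw [e2, e2] at e1
  rw [e1] at hDb
  simp only [Complex.sub_re, Complex.mul_re, Complex.I_re, Complex.I_im, Complex.add_im, Complex.sub_im,
    Complex.add_re, zero_mul, one_mul, zero_sub] at hDb
  have c1 := (abs_le.1 ((Complex.abs_re_le_norm _).trans b1))
  have c5 := (abs_le.1 ((Complex.abs_im_le_norm _).trans b5))
  have c6 := (abs_le.1 ((Complex.abs_im_le_norm _).trans b6))
  have c8 := abs_le.1 hpw
  have c9 := abs_le.1 hDb
  rw [abs_le]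
  constructor
  · linarith only [c1.1, c1.2, c5.1, c5.2, c6.1, c6.2, c8.1, c8.2, c9.1, c9.2, b2, b8, b9]
  · linarith only [c1.1, c1.2, c5.1, c5.2, c6.1, c6.2, c8.1, c8.2, c9.1, c9.2, b2, b8, b9]

/-- the exceptional set -/
def SA (l T x y w V : ℝ) (k : ℕ) (P : ℝ → ℝ) (h : ℝ) : Set ℝ :=
  ({t | t ∈ Icc T (2 * T) ∧ V < ‖PP (ze l h) (XK x T) (t + 0)‖} ∪ {t | t ∈ Icc T (2 * T) ∧ V < P t}) ∪
  (({t | t ∈ Icc T (2 * T) ∧ V < ‖BB l T y w (t + 0)‖} ∪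
    {t | t ∈ Icc T (2 * T) ∧ V < ‖BB l T y w (t + h)‖}) ∪
  ({t | t ∈ Icc (T + Real.log T) (2 * T - Real.log T - 8) ∧ 1 < ‖Q1 (1 / 4) T k (t + 0)‖} ∪
    {t | t ∈ Icc (T + Real.log T) (2 * T - Real.log T - 8) ∧ 1 < ‖Q1 (1 / 4) T k (t + h)‖}))

lemma SA_sub {l T x y w V h : ℝ} {k : ℕ} {P : ℝ → ℝ} (hT : 1 ≤ T) :
    SA l T x y w V k P h ⊆ Icc T (2 * T) := by
  have hL : 0 ≤ Real.log T := Real.log_nonneg hT
  rintro t ((h1 | h1) | ((h1 | h1) | (h1 | h1)))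
  · exact h1.1
  · exact h1.1
  · exact h1.1
  · exact h1.1
  · exact ⟨by linarith [h1.1.1], by linarith [h1.1.2]⟩
  · exact ⟨by linarith [h1.1.1], by linarith [h1.1.2]⟩

/-- the measure of the exceptional set -/
lemma SA_le {lam T x y w V h W0 C4 CQ WL B1 : ℝ} {k m : ℕ} {P : ℝ → ℝ} (hT : 10 ≤ T)
    (hLT : 2 * Real.log T + 8 ≤ T) (hh : 0 ≤ h) (hh8 : h ≤ 8)
    (hx : 0 ≤ x) (hw : 0 ≤ w)
    (hV : 0 < V) (hC4 : 0 ≤ C4) (hWL : 0 ≤ WL) (hW0 : 0 ≤ W0)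
    (mx : 4 * (m : ℝ) * x ≤ 1) (mw : 4 * (m : ℝ) * w ≤ 1)
    (v1 : VS (nz (ze (Real.log T / lam) h)) (XK x T) ≤ WL)
    (v3 : cv lam T y w 0 ≤ W0)
    (hPc : Continuous P) (hP0 : ∀ t, 0 ≤ P t)
    (hPI : ∫ t in T..(2 * T), P t ^ (2 * m) ≤ 18 * T * (m.factorial * C4 ^ m))
    (hQ : ∀ V1 V2 : ℝ, T ≤ V1 → V1 ≤ V2 → V2 ≤ 2 * T →
      ∫ t in V1..V2, ‖Q1 (1 / 4) T k t‖ ^ (2 * k) ≤ 6 * T * (CQ / k) ^ k)
    (t1 : (m * WL / V ^ 2) ^ m ≤ B1) (t2 : (m * C4 / V ^ 2) ^ m ≤ B1) (t3 : (m * W0 / V ^ 2) ^ m ≤ B1)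
    (t6 : (CQ / k) ^ k ≤ B1) :
    volume.real (SA (Real.log T / lam) T x y w V k P h) ≤ T * (81 * B1) := by
  have hT1 : 1 ≤ T := by linarith
  have hT0 : 0 < T := by linarith
  have a1 := tl_PP hT1 hx (ze (Real.log T / lam) h) m mx v1 0 hV
  have a2 := mkv hPc hP0 (by linarith : T ≤ 2 * T) hV (2 * m) hPI
  have a3 := tl_BB (x := y) (lam := lam) hT1 hw m mw v3 0 hV
  have a4 := tl_BB (x := y) (lam := lam) hT1 hw m mw v3 h hV
  have a5 := tl_Q hT rfl hLT (le_refl (0 : ℝ)) (by norm_num) hQ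
  have a6 := tl_Q hT rfl hLT hh hh8 hQ
  have b1 := (fm_le m hWL hV).trans t1
  have b2 := (fm_le m hC4 hV).trans t2
  have b3 := (fm_le m hW0 hV).trans t3
  have c1 : volume.real {t | t ∈ Icc T (2 * T) ∧ V < ‖PP (ze (Real.log T / lam) h) (XK x T) (t + 0)‖} ≤
      T * (17 * B1) := a1.trans (by gcongr)
  have c2 : volume.real {t | t ∈ Icc T (2 * T) ∧ V < P t} ≤ T * (18 * B1) := by
    refine a2.trans ?_
    have e : 18 * T * (m.factorial * C4 ^ m) / V ^ (2 * m) =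
        T * (18 * (m.factorial * C4 ^ m / V ^ (2 * m))) := by ring
    rw [e]
    gcongr
  have c3 : volume.real {t | t ∈ Icc T (2 * T) ∧ V < ‖BB (Real.log T / lam) T y w (t + 0)‖} ≤
      T * (17 * B1) := a3.trans (by gcongr)
  have c4 : volume.real {t | t ∈ Icc T (2 * T) ∧ V < ‖BB (Real.log T / lam) T y w (t + h)‖} ≤
      T * (17 * B1) := a4.trans (by gcongr)
  have c5 := a5.trans (by gcongr : T * (6 * (CQ / k) ^ k) ≤ T * (6 * B1))
  have c6 := a6.trans (by gcongr : T * (6 * (CQ / k) ^ k) ≤ T * (6 * B1))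
  unfold SA
  refine (measureReal_union_le _ _).trans ?_
  refine (add_le_add (measureReal_union_le _ _) (measureReal_union_le _ _)).trans ?_
  refine (add_le_add le_rfl (add_le_add (measureReal_union_le _ _) (measureReal_union_le _ _))).trans ?_
  calc _ ≤ (T * (17 * B1) + T * (18 * B1)) + ((T * (17 * B1) + T * (17 * B1)) +
        (T * (6 * B1) + T * (6 * B1))) := by
        gcongr
    _ = _ := by ring

lemma tlV {a ε2 V K : ℝ} {m : ℕ} (hε2 : 0 < ε2) (hK : 0 ≤ K) (ha0 : 0 ≤ a) (ha : a ≤ Real.exp (-(2 * K / ε2)))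
    (hm : ε2 * V / 2 ≤ m) : a ^ m ≤ Real.exp (-(K * V)) := by
  calc a ^ m ≤ Real.exp (-(2 * K / ε2)) ^ m := pow_le_pow_left₀ ha0 ha m
    _ = Real.exp (m * (-(2 * K / ε2))) := by rw [← Real.exp_nat_mul]
    _ ≤ _ := by
      apply Real.exp_le_exp.2
      have h1 : (ε2 * V / 2) * (2 * K / ε2) ≤ m * (2 * K / ε2) := mul_le_mul_of_nonneg_right hm (by positivity)
      have e : (ε2 * V / 2) * (2 * K / ε2) = K * V := by field_simp
      linarith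

/-- the numerical conditions on `V` -/
lemma evA {ε1 ε2 K W0 C4 CQ C3 Cw : ℝ} (hε1 : 0 < ε1) (hε2 : 0 < ε2) :
    ∀ᶠ V : ℝ in atTop, 1 ≤ V ∧ 2 ≤ ε2 * V ∧ ε2 * W0 / (ε1 ^ 2 * V) ≤ Real.exp (-(2 * K / ε2)) ∧
      ε2 * C4 / (ε1 ^ 2 * V) ≤ Real.exp (-(2 * K / ε2)) ∧
      ε2 * (Cw * Real.log V + 1) / (ε1 ^ 2 * V) ≤ Real.exp (-(2 * K / ε2)) ∧
      CQ / (25 * ε2 * V) ≤ Real.exp (-(2 * K / ε2)) ∧ C3 + 2 ≤ ε1 * V ∧ 100 ≤ Real.exp V := by
  have he : 0 < Real.exp (-(2 * K / ε2)) := Real.exp_pos _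
  have key : ∀ (C c : ℝ), 0 < c → ∀ᶠ V : ℝ in atTop, C / (c * V) ≤ Real.exp (-(2 * K / ε2)) := by
    intro C c hc
    have h1 : Tendsto (fun V : ℝ => C / (c * V)) atTop (𝓝 0) :=
      tendsto_const_nhds.div_atTop (tendsto_id.const_mul_atTop hc)
    exact (h1.eventually (gt_mem_nhds he)).mono fun V hV => hV.le
  have k3 : ∀ᶠ V : ℝ in atTop, ε2 * (Cw * Real.log V + 1) / (ε1 ^ 2 * V) ≤ Real.exp (-(2 * K / ε2)) := by
    have h1 : Tendsto (fun V : ℝ => Real.log V / V) atTop (𝓝 0) := by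
      have h2 : (fun y : ℝ => Real.log y) =o[atTop] fun y : ℝ => y := Real.isLittleO_log_id_atTop
      exact h2.tendsto_div_nhds_zero
    have h2 : Tendsto (fun V : ℝ => (ε2 * Cw / ε1 ^ 2) * (Real.log V / V) + (ε2 / ε1 ^ 2) / V) atTop
        (𝓝 ((ε2 * Cw / ε1 ^ 2) * 0 + 0)) :=
      (h1.const_mul _).add (tendsto_const_nhds.div_atTop tendsto_id)
    rw [mul_zero, add_zero] at h2
    filter_upwards [h2.eventually (gt_mem_nhds he), eventually_gt_atTop 0] with V hV hV0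
    refine le_trans (le_of_eq ?_) hV.le
    field_simp
  filter_upwards [eventually_ge_atTop 1, eventually_ge_atTop (2 / ε2), key (ε2 * W0) (ε1 ^ 2) (by positivity),
    key (ε2 * C4) (ε1 ^ 2) (by positivity), k3, key CQ (25 * ε2) (by positivity),
    eventually_ge_atTop ((C3 + 2) / ε1), Real.tendsto_exp_atTop.eventually_ge_atTop 100]
    with V a1 a2 a3 a4 a5 a6 a7 a8
  rw [div_le_iff₀ (by positivity)] at a2 a7
  exact ⟨a1, by linarith, a3, a4, a5, a6, by linarith, a8⟩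

end

end Pool.Agent.T6.H5.TL
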