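import Pool.Agent.T6.H5.TL.A

/-! # Counts and prime sums, outside a very small exceptional set: the theorem -/

set_option autoImplicit false

namespace Pool.Agent.T6.H5.TL

open Filter Topology MeasureTheory Set
open Pool.Agent.Y743.CL (VS VS_nonneg XK)
open Pool.Agent.R320.JL (PP PP_cont nz ze)
open Pool.Agent.TH850.UV (Db XT)
open SG (NZ)
open SP (RHs Mk Q1)
open Pool.Agent.T6.H5.MX

noncomputable section

/-- **counts and prime sums** -/
theorem AP (hRH : RHs) {ε1 : ℝ} (hε1 : 0 < ε1) : ∃ ε2 : ℝ, 0 < ε2 ∧ ∀ K Cw : ℝ, 0 ≤ K → 0 ≤ Cw →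
    ∃ V0 : ℝ, 1 ≤ V0 ∧ ∀ V : ℝ, V0 ≤ V → ∀ m : ℕ, m = ⌊ε2 * V⌋₊ → 2 ≤ m ∧ ε2 * V / 2 ≤ m ∧
    ∀ x y : ℝ, 0 < x → x ≤ y → y ≤ 1 / (8 * m) →
      Real.log (1 / (8 * m)) - Real.log y ≤ Cw * Real.log V → ∀ a : ℝ, 0 ≤ a → a * x ≤ 2 →
    ∃ T0 : ℝ, 10 ≤ T0 ∧ ∀ T : ℝ, T0 ≤ T →
    volume.real {t | t ∈ Icc T (2 * T) ∧ ¬ (|dv T a t -
      ((BB (Real.log T / (8 * m)) T x y (t + 2 * Real.pi * a / Real.log T)).im -
        (BB (Real.log T / (8 * m)) T x y t).im)| ≤ ε1 * V)} ≤ T * Real.exp (-(K * V)) := by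
  have hpi := Real.pi_pos
  have hpi3 := Real.pi_gt_three
  obtain ⟨CJ, hCJ, hpw⟩ := pw hRH
  obtain ⟨CM, TM, hCM, hTM, hMk⟩ := SP.Mk_bound hRH (1 / 4) (by norm_num) (by norm_num)
  obtain ⟨CQ, TQ, hCQ, hTQ, hQm⟩ := LG.CTAux.leb_mom (1 / 4) (by norm_num) (by norm_num)
  obtain ⟨C3, C4, hC3, hC4, hDb⟩ := Db_rest
  obtain ⟨CL, hCL, hlow⟩ := VS_low
  obtain ⟨ε1', hε1'⟩ : ∃ z : ℝ, z = ε1 / 6 := ⟨_, rfl⟩
  have hε1'0 : 0 < ε1' := by rw [hε1']; positivity
  obtain ⟨ε2, hε2d⟩ : ∃ z : ℝ, z = ε1' / (208 * CJ * CM) := ⟨_, rfl⟩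
  have hε20 : 0 < ε2 := by rw [hε2d]; positivity
  have hε2e : 208 * CJ * CM * ε2 = ε1' := by rw [hε2d]; field_simp
  refine ⟨ε2, hε20, fun K Cw hK hCw => ?_⟩
  obtain ⟨V0, hV0⟩ := (evA (ε1 := ε1') (K := K + 1) (W0 := CL * 160) (C4 := C4) (CQ := CQ) (C3 := C3)
    (Cw := Cw) hε1'0 hε20).exists_forall_of_atTop
  refine ⟨max V0 1, le_max_right _ _, fun V hV m hm => ?_⟩
  obtain ⟨g1, g2, g3, g4, g5, g6, g7, g8⟩ := hV0 V ((le_max_left _ _).trans hV)
  have hVpos : 0 < V := by linarith only [g1]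
  have hlV : 0 ≤ Real.log V := Real.log_nonneg g1
  -- the parameters
  have m1 : (m : ℝ) ≤ ε2 * V := by rw [hm]; exact Nat.floor_le (by positivity)
  have m2 : ε2 * V - 1 < m := by rw [hm]; exact Nat.sub_one_lt_floor _
  have m3 : 2 ≤ m := by rw [hm]; exact Nat.le_floor (by exact_mod_cast g2)
  have m3r : (2 : ℝ) ≤ m := by exact_mod_cast m3
  have m4 : ε2 * V / 2 ≤ m := by linarith only [m2, g2]
  refine ⟨m3, m4, fun x y hx hxy hyκ hlyκ a ha hax => ?_⟩
  obtain ⟨k, hk⟩ : ∃ k : ℕ, k = ⌈2 * Real.pi * (8 * m : ℝ)⌉₊ := ⟨_, rfl⟩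
  have k1 : 2 * Real.pi * (8 * m : ℝ) ≤ k := by rw [hk]; exact Nat.le_ceil _
  have k2 : (k : ℝ) ≤ 2 * Real.pi * (8 * m : ℝ) + 1 := by
    rw [hk]; exact (Nat.ceil_lt_add_one (by positivity)).le
  have hpi2 := Real.pi_lt_d2
  have hpi1 := Real.pi_gt_d2
  have k3 : (k : ℝ) ≤ 52 * m := by nlinarith only [k2, hpi2, m3r]
  have k4 : 50 * (m : ℝ) ≤ k := by nlinarith only [k1, hpi1, m3r]
  have k5 : 25 * ε2 * V ≤ k := by linarith only [k4, m4]
  have hk1 : 1 ≤ k := by
    have : (0 : ℝ) < k := lt_of_lt_of_le (by positivity) k1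
    exact_mod_cast this
  have hkpos : (0 : ℝ) < k := by exact_mod_cast hk1
  obtain ⟨lam, hlam⟩ : ∃ lam : ℝ, lam = 8 * m := ⟨_, rfl⟩
  rw [← hlam] at k1 ⊢
  have hlam16 : 16 ≤ lam := by rw [hlam]; linarith only [m3r]
  have hlam0 : 0 < lam := by linarith only [hlam16]
  obtain ⟨κ, hκ⟩ : ∃ κ : ℝ, κ = 1 / (8 * m) := ⟨_, rfl⟩
  rw [← hκ] at hyκ hlyκ
  have hκ0 : 0 < κ := by rw [hκ]; positivity
  have hκm : 4 * (m : ℝ) * κ = 1 / 2 := by rw [hκ]; field_simp; norm_num
  have hy0 : 0 < y := hx.trans_le hxy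
  obtain ⟨Tp, hTp, hpwT⟩ := hpw lam hlam16 (a + 1) (by positivity)
  obtain ⟨Td, hTd, hDbT⟩ := hDb m (by omega) lam (by rw [hlam])
  obtain ⟨B, hB⟩ : ∃ B : ℝ, B = Real.exp (-((K + 1) * V)) := ⟨_, rfl⟩
  have hB0 : 0 < B := by rw [hB]; exact Real.exp_pos _
  have hvT := cv_up (lam := lam) hy0 hyκ hlam0 one_pos
  have hlogT : ∀ᶠ T : ℝ in atTop, 1 ≤ x * Real.log T ∧ 2 * Real.pi * a ≤ 8 * Real.log T ∧
      2 * Real.log T + 8 ≤ B * T ∧ 2 * Real.log T + 8 ≤ T := by
    have h1 : (fun T : ℝ => 2 * Real.log T + 8) =o[atTop] fun T : ℝ => T :=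
      (Real.isLittleO_log_id_atTop.const_mul_left 2).add (Asymptotics.isLittleO_const_id_atTop _)
    have h2 := h1.bound hB0
    have h3 := h1.bound one_pos
    have h4 := Real.tendsto_log_atTop.eventually_ge_atTop (1 / x)
    have h5 := Real.tendsto_log_atTop.eventually_ge_atTop (2 * Real.pi * a / 8)
    filter_upwards [h2, h3, h4, h5, eventually_ge_atTop 1] with T b1 b2 b3 b4 b5
    rw [Real.norm_of_nonneg (by linarith : (0 : ℝ) ≤ T)] at b1 b2
    refine ⟨?_, by linarith only [b4], (le_abs_self _).trans b1, ?_⟩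
    · rw [div_le_iff₀ hx] at b3
      linarith only [b3]
    · have := (le_abs_self _).trans b2
      linarith only [this]
  obtain ⟨Te, hTe⟩ := (hvT.and hlogT).exists_forall_of_atTop
  refine ⟨max (max (max 10 Tp) (max Td Te)) (max TM TQ), ?_, fun T hT => ?_⟩
  · exact (le_max_left _ _).trans ((le_max_left _ _).trans (le_max_left _ _))
  have hT10 : 10 ≤ T := ((le_max_left _ _).trans ((le_max_left _ _).trans (le_max_left _ _))).trans hT
  have hTTp : Tp ≤ T := ((le_max_right _ _).trans ((le_max_left _ _).trans (le_max_left _ _))).trans hT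
  have hTTd : Td ≤ T := ((le_max_left _ _).trans ((le_max_right _ _).trans (le_max_left _ _))).trans hT
  have hTTe : Te ≤ T := ((le_max_right _ _).trans ((le_max_right _ _).trans (le_max_left _ _))).trans hT
  have hTTM : TM ≤ T := ((le_max_left _ _).trans (le_max_right _ _)).trans hT
  have hTTQ : TQ ≤ T := ((le_max_right _ _).trans (le_max_right _ _)).trans hT
  have hT0 : 0 < T := by linarith only [hT10]
  have hT1 : 1 ≤ T := by linarith only [hT10]
  obtain ⟨cv1, l1, l2, l3, l4⟩ := hTe T hTTe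
  have hpw2 := hpwT T hTTp
  have hDb2 := hDbT T hTTd
  have hMk2 := hMk T hTTM
  have hQm2 := hQm T hTTQ k hk1
  clear hTe hpwT hDbT hMk hQm hpw hDb
  obtain ⟨L, hL⟩ : ∃ L : ℝ, L = Real.log T := ⟨_, rfl⟩
  have hL0 : 0 < L := by rw [hL]; exact Real.log_pos (by linarith only [hT10])
  obtain ⟨h, hhd⟩ : ∃ h : ℝ, h = 2 * Real.pi * a / Real.log T := ⟨_, rfl⟩
  have hh0 : 0 ≤ h := by rw [hhd, ← hL]; positivity
  have hh8 : h ≤ 8 := by
    rw [hhd, div_le_iff₀ (by rw [← hL]; exact hL0)]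
    exact l2
  obtain ⟨P, hPc, hP0, hPd, hPI⟩ := hDb2 h
  rw [← hκ] at hPd
  obtain ⟨V1, hV1⟩ : ∃ V1 : ℝ, V1 = ε1' * V := ⟨_, rfl⟩
  have hV10 : 0 < V1 := by rw [hV1]; positivity
  -- the tails
  have e2K : ∀ W : ℝ, 0 ≤ W → ε2 * W / (ε1' ^ 2 * V) ≤ Real.exp (-(2 * (K + 1) / ε2)) →
      (m * W / V1 ^ 2) ^ m ≤ B := by
    intro W hW hWe
    rw [hB]
    refine tlV hε20 (by linarith) (by positivity) ?_ m4
    refine le_trans ?_ hWe
    rw [hV1]
    have e : ε2 * W / (ε1' ^ 2 * V) = (ε2 * V) * W / (ε1' * V) ^ 2 := by field_simp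
    rw [e]
    gcongr
  have s1 := e2K (CL * 160) (by positivity) g3
  have s2 := e2K C4 hC4 g4
  have s3 := e2K (Cw * Real.log V + 1) (by positivity) g5
  have s4 : (CQ / k) ^ k ≤ B := by
    rw [hB]
    refine tlV hε20 (by linarith) (by positivity) (le_trans ?_ g6) ?_
    · exact div_le_div_of_nonneg_left hCQ.le (by positivity) k5
    · have : 0 ≤ ε2 * V := by positivity
      linarith only [k5, this]
  obtain ⟨S, hS⟩ : ∃ S : Set ℝ, S = SA (Real.log T / lam) T x y κ V1 k P h := ⟨_, rfl⟩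
  have hm0 : (0 : ℝ) ≤ 4 * m := by positivity
  have hSle : volume.real S ≤ T * (81 * B) := by
    rw [hS]
    refine SA_le (m := m) (C4 := C4) (CQ := CQ) (WL := CL * 160) (W0 := Cw * Real.log V + 1)
      hT10 l4 hh0 hh8 hx.le hκ0.le hV10 hC4 (by positivity) (by positivity) ?_ ?_ ?_ ?_ hPc hP0 ?_
      hQm2 s1 s2 s3 s4
    · exact (mul_le_mul_of_nonneg_left (hxy.trans hyκ) hm0).trans (by linarith only [hκm])
    · linarith only [hκm]
    · refine (hlow (Real.log T / lam) h T x (by rw [← hL]; positivity) hT10 hx.le l1).trans ?_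
      apply mul_le_mul_of_nonneg_left _ hCL.le
      have e : h * (x * Real.log T) = 2 * Real.pi * (a * x) := by
        rw [hhd, ← hL]
        field_simp
      rw [e]
      have h2 : 2 * Real.pi * (a * x) ≤ 12.6 := by
        have h3 : 2 * Real.pi * (a * x) ≤ 2 * Real.pi * 2 := by gcongr
        linarith only [h3, hpi2]
      have h4 : 0 ≤ 2 * Real.pi * (a * x) := by positivity
      nlinarith only [h2, h4]
    · refine cv1.trans ?_
      have hp : 1 / Real.pi ^ 2 ≤ 1 := by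
        rw [div_le_one (by positivity)]
        nlinarith only [hpi3]
      have hp0 : 0 < 1 / Real.pi ^ 2 := by positivity
      have hp1 : 0 ≤ Cw * Real.log V := by positivity
      have hp2 : 1 / Real.pi ^ 2 * (Real.log κ - Real.log y) ≤ 1 / Real.pi ^ 2 * (Cw * Real.log V) :=
        mul_le_mul_of_nonneg_left hlyκ hp0.le
      have hp3 : 1 / Real.pi ^ 2 * (Cw * Real.log V) ≤ 1 * (Cw * Real.log V) :=
        mul_le_mul_of_nonneg_right hp hp1
      linarith only [hp2, hp3]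
    · exact hPI T (2 * T) (by linarith only [hT0]) (by linarith only)
  obtain ⟨E0, hE0⟩ : ∃ E0 : Set ℝ, E0 = Icc T (T + L) ∪ Icc (2 * T - L - 8) (2 * T) := ⟨_, rfl⟩
  have hE0le : volume.real E0 ≤ T * B := by
    rw [hE0]
    refine (measureReal_union_le _ _).trans ?_
    rw [Real.volume_real_Icc, Real.volume_real_Icc, max_eq_left (by linarith only [hL0]),
      max_eq_left (by linarith only [hL0])]
    rw [← hL] at l3
    linarith only [l3]
  have hU : volume.real (S ∪ E0) ≤ T * Real.exp (-(K * V)) := by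
    refine (measureReal_union_le _ _).trans ?_
    have e1 : Real.exp (-(K * V)) = B * Real.exp V := by
      rw [hB, ← Real.exp_add]; congr 1; ring
    have e2 : 100 * B ≤ Real.exp (-(K * V)) := by
      rw [e1]
      nlinarith only [g8, hB0]
    have e3 := mul_le_mul_of_nonneg_left e2 hT0.le
    have e4 : 0 < T * B := by positivity
    linarith only [hSle, hE0le, e3, e4]
  refine le_trans (measureReal_mono ?_ ?_) hU
  · intro t ht
    obtain ⟨ht1, ht2⟩ := ht
    by_contra hcon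
    apply ht2
    rw [mem_union] at hcon
    push Not at hcon
    obtain ⟨n1, n2⟩ := hcon
    have ht3 : T + L ≤ t ∧ t ≤ 2 * T - L - 8 := by
      rw [hE0, mem_union] at n2
      push Not at n2
      obtain ⟨k6, k7⟩ := n2
      constructor
      · by_contra h
        exact k6 ⟨ht1.1, (not_le.1 h).le⟩
      · by_contra h
        exact k7 ⟨(not_le.1 h).le, ht1.2⟩
    rw [hS] at n1
    unfold SA at n1
    simp only [mem_union, mem_ofPred_eq] at n1
    push Not at n1
    obtain ⟨⟨a1, a2⟩, ⟨a3, a4⟩, a5, a6⟩ := n1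
    have ht4 : t ∈ Icc (T + Real.log T) (2 * T - Real.log T - 8) := by rw [← hL]; exact ht3
    have z1 := a1 ht1
    have z2 := a2 ht1
    have z3 := a3 ht1
    have z4 := a4 ht1
    have z5 := a5 ht4
    have z6 := a6 ht4
    rw [add_zero] at z1 z3 z5
    have b1 := hpw2 a ha (by linarith only) k k1 t (by rw [← hL]; exact ht3.1)
        (by rw [← hL]; exact ht3.2)
    rw [← hhd] at b1
    have b2 := hPd t
    have b3 := hMk2 t (by rw [← hL]; exact ht3.1) (by rw [← hL]; linarith only [ht3.2]) k hk1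
    have b4 := hMk2 (t + h) (by rw [← hL]; linarith only [ht3.1, hh0])
        (by rw [← hL]; linarith only [ht3.2, hh8]) k hk1
    have b5 : CJ * (Mk T k t + Mk T k (t + h)) ≤ V1 := by
      have c1 : Mk T k t ≤ CM * k * 2 := by
        refine b3.trans ?_
        apply mul_le_mul_of_nonneg_left _ (by positivity)
        linarith only [z5]
      have c2 : Mk T k (t + h) ≤ CM * k * 2 := by
        refine b4.trans ?_
        apply mul_le_mul_of_nonneg_left _ (by positivity)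
        linarith only [z6]
      calc CJ * (Mk T k t + Mk T k (t + h)) ≤ CJ * (CM * k * 2 + CM * k * 2) := by gcongr
        _ = 4 * CJ * CM * k := by ring
        _ ≤ 4 * CJ * CM * (52 * (ε2 * V)) := by
            apply mul_le_mul_of_nonneg_left _ (by positivity)
            linarith only [k3, m1]
        _ = (208 * CJ * CM * ε2) * V := by ring
        _ = V1 := by rw [hε2e, hV1]
    have := det2 hT1 hxy hyκ b1 b2 z1 z2 z3 z4 b5 (by rw [hV1]; exact g7)
    unfold dv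
    rw [← hhd]
    refine this.trans (le_of_eq ?_)
    rw [hV1, hε1']
    ring
  · apply ne_top_of_le_ne_top (b := volume (Icc T (2 * T)))
    · simp [Real.volume_Icc]
    · refine measure_mono (union_subset ?_ ?_)
      · rw [hS]
        exact SA_sub hT1
      · rw [hE0]
        rw [← hL] at l4
        apply union_subset
        · exact Icc_subset_Icc le_rfl (by linarith only [l4, hL0])
        · exact Icc_subset_Icc (by linarith only [l4, hL0]) le_rfl

end

end Pool.Agent.T6.H5.TL
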