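import Pool.Agent.T6.H5.TL.B

/-! # The two tails of the main term -/

set_option autoImplicit false

namespace Pool.Agent.T6.H5.TL

open Filter Topology MeasureTheory Set ProbabilityTheory Complex
open Pool.Agent.Y743.CL (VS VS_nonneg XK)
open Pool.Agent.R320.JL (PP PP_cont nz ze)
open Pool.Agent.T6.H5.MX

noncomputable section

/-- the main term -/
def Dm (lam T x y a t : ℝ) : ℝ :=
  (BB (Real.log T / lam) T x y (t + 2 * Real.pi * a / Real.log T)).im - (BB (Real.log T / lam) T x y t).im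

lemma Dm_cont (lam T x y a : ℝ) : Continuous (Dm lam T x y a) := by
  unfold Dm
  have h := BB_cont (Real.log T / lam) T x y
  exact (Complex.continuous_im.comp (h.comp (by fun_prop))).sub (Complex.continuous_im.comp h)

/-- two levels -/
def y2 (x y : ℝ) (k : ℕ) : ℝ := if k = 0 then x else y

lemma y2_mono {x y : ℝ} (h : x ≤ y) : Monotone (y2 x y) := by
  intro i j hij
  unfold y2
  split_ifs with h1 h2 h2
  · exact le_rfl
  · exact h
  · omega
  · exact le_rfl

/-- the upper tail -/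
lemma upT {T : ℝ} (hT : 1 ≤ T) {x y lam a : ℝ} (hxy : x ≤ y) (hy : 0 ≤ y) (m : ℕ) (hm : 4 * (m : ℝ) * y ≤ 1)
    {W : ℝ} (hW : 2 * (cv lam T x y 0 - cv lam T x y a) ≤ W) {V : ℝ} (hV : 0 < V) :
    volume.real {t | t ∈ Icc T (2 * T) ∧ V < |Dm lam T x y a t|} ≤
      T * (17 * (m.factorial * W ^ m / V ^ (2 * m))) := by
  obtain ⟨z, hz⟩ : ∃ z : ℕ → ℂ, z = zz 1 1 (Real.log T / lam) T (y2 x y) (2 * Real.pi * 0 / Real.log T)
    (2 * Real.pi * a / Real.log T) (fun _ : Fin 1 => ((-1 : ℝ), (1 : ℝ))) := ⟨_, rfl⟩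
  have hVS := zz_VS (σ := 1) (e := 1) (T := T) (by norm_num) hT lam (y2_mono hxy) (n := 1) 0 a
    (fun _ : Fin 1 => ((-1 : ℝ), (1 : ℝ)))
  rw [← hz] at hVS
  have e1 : y2 x y 1 = y := by unfold y2; simp
  have e0 : y2 x y 0 = x := by unfold y2; simp
  simp only [Finset.univ_unique, Fin.default_eq_zero, Fin.isValue, Fin.val_zero, zero_add,
    Finset.sum_singleton, sub_zero] at hVS
  rw [e1, e0] at hVS
  have hre := fun t => zz_re (σ := 1) (e := 1) (l := Real.log T / lam) hT (y2_mono hxy) (n := 1)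
    (2 * Real.pi * 0 / Real.log T) (2 * Real.pi * a / Real.log T) (fun _ : Fin 1 => ((-1 : ℝ), (1 : ℝ))) t
  rw [← hz] at hre
  simp only [Finset.univ_unique, Fin.default_eq_zero, Fin.isValue, Fin.val_zero, zero_add,
    Finset.sum_singleton] at hre
  rw [e1, e0] at hre
  have h1 := tl_PP hT hy z m hm (W := W) (by
    rw [hVS]
    refine le_trans (le_of_eq ?_) hW
    ring) 0 hV
  have hfin : volume {t | t ∈ Icc T (2 * T) ∧ V < ‖PP z (XK y T) (t + 0)‖} ≠ ⊤ :=
    ne_top_of_le_ne_top (b := volume (Icc T (2 * T))) (by simp [Real.volume_Icc])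
      (measure_mono fun t ht => ht.1)
  refine le_trans (measureReal_mono ?_ hfin) h1
  rintro t ⟨ht1, ht2⟩
  refine ⟨ht1, ht2.trans_le ?_⟩
  rw [add_zero]
  refine le_trans (le_of_eq ?_) (Complex.abs_re_le_norm _)
  rw [hre]
  unfold Dm
  congr 1
  simp only [mul_zero, zero_div, add_zero]
  ring

lemma neg_Gm : MeasurePreserving (fun x : ℝ => -x) Gm Gm := by
  refine ⟨measurable_neg, ?_⟩
  unfold Gm
  rw [gaussianReal_map_neg, neg_zero]

lemma gi3 {s ρ : ℝ} (hs : 0 ≤ s) (hρ : |ρ| ≤ s) (v : ℝ) :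
    ∫ z : ℝ × ℝ, cexp (-(I * ((-v) * z.1 + v * z.2 : ℝ))) *
      ((Real.exp (-((s * z.1 ^ 2 + s * z.2 ^ 2 + 2 * ρ * (z.1 * z.2)) / 2)) : ℝ) : ℂ) ∂(Gm.prod Gm) =
      (g2 s (-ρ) v : ℂ) := by
  rw [← gi2 hs (by rwa [abs_neg]) v]
  have hp := neg_Gm.prod (MeasurePreserving.id Gm)
  have he : MeasurableEmbedding (Prod.map (fun x : ℝ => -x) (id : ℝ → ℝ)) :=
    ((MeasurableEquiv.neg ℝ).prodCongr (MeasurableEquiv.refl ℝ)).measurableEmbedding
  rw [← hp.integral_comp he]
  refine integral_congr_ae (Filter.Eventually.of_forall fun z => ?_)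
  show cexp _ * _ = cexp _ * _
  simp only [Prod.map_fst, Prod.map_snd, id]
  congr 3
  · congr 1
    ring
  · congr 2
    ring

/-- the product of the two bumps -/
def FF (σ lam T x y a v t : ℝ) : ℝ :=
  Real.exp (-(Yk σ lam T (y2 x y) 0 0 t - (-v)) ^ 2 / 2) * Real.exp (-(1 * Yk σ lam T (y2 x y) a 0 t - v) ^ 2 / 2)

/-- the mean value of the product of the two bumps -/
lemma lowE {x y : ℝ} (hx : 0 < x) (hxy : x ≤ y) (M : ℕ) (hM : 4 * (M : ℝ) * y ≤ 1)
    (K R : ℝ) (hK : 0 ≤ K) (hKM : K ≤ M / 2) (hR0 : 0 ≤ R) {δ : ℝ} (hδ : 0 < δ) :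
    ∃ T0 : ℝ, 10 ≤ T0 ∧ ∀ T : ℝ, T0 ≤ T → ∀ lam : ℝ, 0 < lam → ∀ σ : ℝ, σ ^ 2 = 1 →
    4 * R ^ 2 * cv lam T x y 0 ≤ K → ∀ a v : ℝ,
    T * (g2 (cv lam T x y 0 / 2) (-(cv lam T x y a / 2)) v - er K M 1 R δ) ≤
      ∫ t in T..(2 * T), FF σ lam T x y a v t := by
  have e1 : y2 x y 1 = y := by unfold y2; simp
  have e0 : y2 x y 0 = x := by unfold y2; simp
  obtain ⟨T0, hT0, h⟩ := genE (y2_mono hxy) (by rw [e0]; exact hx) (n := 1) M (by rw [e1]; exact hM)
    K R hK hKM hR0 hδ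
  refine ⟨T0, hT0, fun T hT lam hlam σ hσ hKc a v => ?_⟩
  have hT10 : 10 ≤ T := hT0.trans hT
  have h1 := h T hT lam hlam σ 1 hσ zero_le_one le_rfl 0 a (by
    simp only [Finset.univ_unique, Fin.default_eq_zero, Fin.isValue, Fin.val_zero, zero_add,
      Finset.sum_singleton]
    rw [e1, e0]
    exact hKc) (-v) v T (2 * T) (by linarith) (by linarith)
  simp only [Finset.univ_unique, Fin.default_eq_zero, Fin.isValue, Fin.val_zero,
    Finset.prod_singleton, sub_zero] at h1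
  have e2 : ∫ z : ℝ × ℝ, cexp (-(I * ((-v) * z.1 + v * z.2 : ℝ))) *
        ((Real.exp (-qk lam T (y2 x y) 1 a 0 z) : ℝ) : ℂ) ∂Gp =
        (g2 (cv lam T x y 0 / 2) (-(cv lam T x y a / 2)) v : ℂ) := by
    have hs0 : 0 ≤ cv lam T x y 0 / 2 := by
      have := cv_zero_nonneg lam T x y
      linarith
    have hρ : |cv lam T x y a / 2| ≤ cv lam T x y 0 / 2 := by
      rw [abs_div, abs_of_pos (by norm_num : (0 : ℝ) < 2)]
      have := cv_abs lam T x y a
      linarith
    rw [← gi3 hs0 hρ v]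
    unfold Gp
    refine integral_congr_ae (Filter.Eventually.of_forall fun z => ?_)
    show cexp _ * _ = cexp _ * _
    unfold qk
    simp only [zero_add]
    rw [e1, e0]
    congr 3
    ring
  rw [e2, ← Complex.ofReal_mul, ← Complex.ofReal_sub, Complex.norm_real, Real.norm_eq_abs] at h1
  have h2 := (abs_le.1 h1).1
  have e3 : ∫ t in T..(2 * T), FF σ lam T x y a v t = ∫ t in T..(2 * T),
      (Real.exp (-(Yk σ lam T (y2 x y) 0 0 t - (-v)) ^ 2 / 2) *
        Real.exp (-(1 * Yk σ lam T (y2 x y) a 0 t - v) ^ 2 / 2)) := rfl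
  rw [e3]
  have e4 : 2 * T - T = T := by ring
  rw [e4] at h2
  linarith

/-- the lower tail -/
lemma lowT {σ lam T x y a v w : ℝ} (hT : 0 < T) (hw : 0 < w) :
    ∫ t in T..(2 * T), FF σ lam T x y a v t ≤
      volume.real {t | t ∈ Icc T (2 * T) ∧ 2 * v - 2 * w ≤ σ * Dm lam T x y a t} +
        T * Real.exp (-w ^ 2 / 2) := by
  obtain ⟨E, hE⟩ : ∃ E : Set ℝ, E = {t | t ∈ Icc T (2 * T) ∧ 2 * v - 2 * w ≤ σ * Dm lam T x y a t} := ⟨_, rfl⟩
  rw [← hE]
  have hDc := Dm_cont lam T x y a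
  have hEm : MeasurableSet E := by
    rw [hE]
    exact measurableSet_Icc.inter (measurableSet_le measurable_const (hDc.measurable.const_mul σ))
  have e1 : y2 x y (0 + 1) = y := by unfold y2; simp
  have e0 : y2 x y 0 = x := by unfold y2; simp
  have hFc : Continuous (FF σ lam T x y a v) := by
    unfold FF
    have h1 := Yk_cont σ lam T (y2 x y) 0 0
    have h2 := Yk_cont σ lam T (y2 x y) a 0
    fun_prop
  have hpt : ∀ t ∈ Icc T (2 * T), FF σ lam T x y a v t ≤
      E.indicator (fun _ => (1 : ℝ)) t + Real.exp (-w ^ 2 / 2) := by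
    intro t ht
    obtain ⟨A, hA⟩ : ∃ A : ℝ, A = Yk σ lam T (y2 x y) 0 0 t := ⟨_, rfl⟩
    obtain ⟨B, hB⟩ : ∃ B : ℝ, B = Yk σ lam T (y2 x y) a 0 t := ⟨_, rfl⟩
    have hD : σ * Dm lam T x y a t = B - A := by
      rw [hA, hB]
      unfold Dm Yk
      rw [e1, e0]
      simp only [mul_zero, zero_div, add_zero]
      ring
    unfold FF
    rw [← hA, ← hB]
    have p1 : Real.exp (-(A - (-v)) ^ 2 / 2) ≤ 1 := by
      rw [Real.exp_le_one_iff]; nlinarith [sq_nonneg (A - (-v))]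
    have p2 : Real.exp (-(1 * B - v) ^ 2 / 2) ≤ 1 := by
      rw [Real.exp_le_one_iff]; nlinarith [sq_nonneg (1 * B - v)]
    have q1 := Real.exp_pos (-(A - (-v)) ^ 2 / 2)
    have q2 := Real.exp_pos (-(1 * B - v) ^ 2 / 2)
    by_cases h : t ∈ E
    · rw [indicator_of_mem h]
      have := Real.exp_pos (-w ^ 2 / 2)
      nlinarith
    · rw [indicator_of_notMem h, zero_add]
      have h2 : σ * Dm lam T x y a t < 2 * v - 2 * w := by
        by_contra hcon
        push Not at hcon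
        apply h
        rw [hE]
        exact ⟨ht, hcon⟩
      rw [hD] at h2
      have h3 : w ≤ v - B ∨ w ≤ v + A := by
        by_contra hcon
        push Not at hcon
        linarith [hcon.1, hcon.2]
      rcases h3 with h3 | h3
      · have h4 : Real.exp (-(1 * B - v) ^ 2 / 2) ≤ Real.exp (-w ^ 2 / 2) := by
          apply Real.exp_le_exp.2
          nlinarith
        calc _ ≤ 1 * Real.exp (-(1 * B - v) ^ 2 / 2) := mul_le_mul_of_nonneg_right p1 q2.le
          _ ≤ _ := by rw [one_mul]; exact h4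
      · have h4 : Real.exp (-(A - (-v)) ^ 2 / 2) ≤ Real.exp (-w ^ 2 / 2) := by
          apply Real.exp_le_exp.2
          nlinarith
        calc _ ≤ Real.exp (-(A - (-v)) ^ 2 / 2) * 1 := mul_le_mul_of_nonneg_left p2 q1.le
          _ ≤ _ := by rw [mul_one]; exact h4
  have hIf : volume (Icc T (2 * T)) ≠ ⊤ := by rw [Real.volume_Icc]; exact ENNReal.ofReal_ne_top
  have i1 : IntegrableOn (E.indicator fun _ : ℝ => (1 : ℝ)) (Icc T (2 * T)) :=
    (integrableOn_const hIf).indicator hEm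
  have i2 : IntegrableOn (fun _ : ℝ => Real.exp (-w ^ 2 / 2)) (Icc T (2 * T)) := integrableOn_const hIf
  rw [intervalIntegral.integral_of_le (by linarith), ← integral_Icc_eq_integral_Ioc]
  have h1 := setIntegral_mono_on (μ := volume) (hFc.integrableOn_Icc) (i1.add i2) measurableSet_Icc
    (fun t ht => hpt t ht)
  refine h1.trans ?_
  have h2 := integral_add (μ := volume.restrict (Icc T (2 * T))) i1 i2
  simp only [Pi.add_apply] at h2 ⊢
  rw [h2, setIntegral_indicator hEm, setIntegral_const, setIntegral_const, Real.volume_real_Icc_of_le (by linarith)]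
  have h3 : volume.real (Icc T (2 * T) ∩ E) ≤ volume.real E :=
    measureReal_mono inter_subset_right (ne_top_of_le_ne_top hIf (measure_mono (by
      rw [hE]; exact fun t ht => ht.1)))
  simp only [smul_eq_mul, mul_one]
  have e4 : 2 * T - T = T := by ring
  rw [e4]
  linarith

end

end Pool.Agent.T6.H5.TL
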