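import Pool.Agent.T6.H5.TL.C

/-! # The two tails: the numerical part -/

set_option autoImplicit false

namespace Pool.Agent.T6.H5.TL

open Filter Topology MeasureTheory Set
open Pool.Agent.T6.H5.MX

noncomputable section

/-- the upper tail, numerically -/
lemma numU {ε R V G W V' : ℝ} {m : ℕ} (hε : 0 < ε) (hε1 : ε ≤ 1 / 2) (hR : 600 / ε ≤ R) (hV : 0 < V)
    (hG : G = Real.pi ^ 2 * V ^ 2 / (2 * R)) (hW : W = 2 * R / Real.pi ^ 2 + 12)
    (hV' : V' = (1 - ε / 10) * V) (hm : m = ⌊V' ^ 2 / W⌋₊) (hG3 : 3 ≤ G)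
    (hGε : 34 * Real.exp 1 ^ 2 * G ≤ Real.exp (7 * ε / 10 * G)) :
    1 ≤ m ∧ m * W ≤ V' ^ 2 ∧ (m : ℝ) ≤ G ∧
      17 * (Real.exp 1 * m * Real.exp (-m)) ≤ 1 / 2 * Real.exp (-((1 - ε) * G)) := by
  have hpi := Real.pi_pos
  have hpi1 := Real.pi_gt_d2
  have hpi2 := Real.pi_lt_d2
  have hR0 : 0 < R := lt_of_lt_of_le (by positivity) hR
  have hW0 : 0 < W := by rw [hW]; positivity
  have hV'0 : 0 < V' := by
    rw [hV']
    have : 0 < 1 - ε / 10 := by linarith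
    positivity
  have hG0 : 0 < G := by linarith
  have hp10 : Real.pi ^ 2 ≤ 10 := by nlinarith
  -- the ratio
  have e1 : V' ^ 2 / W = (1 - ε / 10) ^ 2 * G / (1 + 6 * Real.pi ^ 2 / R) := by
    rw [hV', hG, hW]
    field_simp
    ring
  have hq0 : 0 < 1 + 6 * Real.pi ^ 2 / R := by positivity
  have hq1 : 1 + 6 * Real.pi ^ 2 / R ≤ 1 + ε / 10 := by
    have h1 : 6 * Real.pi ^ 2 / R ≤ 60 / R := by
      apply div_le_div_of_nonneg_right _ hR0.le
      linarith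
    have h2 : 60 / R ≤ ε / 10 := by
      rw [div_le_iff₀ hε] at hR
      rw [div_le_iff₀ hR0]
      linarith
    linarith
  have hq2 : 1 ≤ 1 + 6 * Real.pi ^ 2 / R := by
    have : 0 ≤ 6 * Real.pi ^ 2 / R := by positivity
    linarith
  have hlow : (1 - 3 * ε / 10) * G ≤ V' ^ 2 / W := by
    rw [e1, le_div_iff₀ hq0]
    have h1 : (1 - 3 * ε / 10) * G * (1 + 6 * Real.pi ^ 2 / R) ≤ (1 - 3 * ε / 10) * G * (1 + ε / 10) := by
      apply mul_le_mul_of_nonneg_left hq1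
      have : 0 ≤ 1 - 3 * ε / 10 := by linarith
      positivity
    have h2 : (1 - 3 * ε / 10) * (1 + ε / 10) ≤ (1 - ε / 10) ^ 2 := by nlinarith [sq_nonneg ε]
    nlinarith
  have hup : V' ^ 2 / W ≤ G := by
    rw [e1, div_le_iff₀ hq0]
    have h1 : (1 - ε / 10) ^ 2 ≤ 1 := by nlinarith
    nlinarith
  have hnn : 0 ≤ V' ^ 2 / W := by positivity
  have m1 : (m : ℝ) ≤ V' ^ 2 / W := by rw [hm]; exact Nat.floor_le hnn
  have m2 : V' ^ 2 / W - 1 < m := by rw [hm]; exact Nat.sub_one_lt_floor _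
  have m3 : 1 ≤ m := by
    rw [hm]
    apply Nat.le_floor
    rw [Nat.cast_one]
    nlinarith
  refine ⟨m3, ?_, m1.trans hup, ?_⟩
  · rw [← le_div_iff₀ hW0]
    exact m1
  · have h1 : Real.exp (-(m : ℝ)) ≤ Real.exp 1 * (Real.exp (-((1 - ε) * G)) * Real.exp (-(7 * ε / 10 * G))) := by
      rw [← Real.exp_add, ← Real.exp_add]
      apply Real.exp_le_exp.2
      nlinarith
    have h2 : Real.exp (-(7 * ε / 10 * G)) * (34 * Real.exp 1 ^ 2 * G) ≤ 1 := by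
      rw [Real.exp_neg, inv_mul_le_iff₀ (Real.exp_pos _), mul_one]
      exact hGε
    have he := Real.exp_pos 1
    have hX := Real.exp_pos (-((1 - ε) * G))
    have hY := Real.exp_pos (-(7 * ε / 10 * G))
    have hm0 : (0 : ℝ) ≤ m := Nat.cast_nonneg _
    calc 17 * (Real.exp 1 * m * Real.exp (-m)) ≤
        17 * (Real.exp 1 * G * (Real.exp 1 * (Real.exp (-((1 - ε) * G)) * Real.exp (-(7 * ε / 10 * G))))) := by
          gcongr
          exact m1.trans hup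
      _ = 1 / 2 * Real.exp (-((1 - ε) * G)) * (Real.exp (-(7 * ε / 10 * G)) * (34 * Real.exp 1 ^ 2 * G)) := by
          ring
      _ ≤ 1 / 2 * Real.exp (-((1 - ε) * G)) * 1 := mul_le_mul_of_nonneg_left h2 (by positivity)
      _ = _ := by ring

/-- the lower tail, numerically -/
lemma numL {ε R V G s ρ v : ℝ} (hε : 0 < ε) (hε1 : ε ≤ 1 / 2) (hR : 0 < R) (hV : 0 < V)
    (hG : G = Real.pi ^ 2 * V ^ 2 / (2 * R)) (hv : v = (1 + ε / 5) * V / 2)
    (hs : 0 ≤ s) (hρ : |ρ| ≤ s) (h1 : R / (2 * Real.pi ^ 2) * (1 - ε / 20) ≤ 1 + s - ρ) (h2 : 1 + s ≤ R)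
    (hGR : 2 * R ≤ Real.exp (ε / 2 * G)) :
    2 * Real.exp (-((1 + ε) * G)) ≤ g2 s (-ρ) v := by
  have hpi := Real.pi_pos
  have hG0 : 0 < G := by rw [hG]; positivity
  obtain ⟨hρ1, hρ2⟩ := abs_le.1 hρ
  have hd0 : 0 < (1 + s) ^ 2 - (-ρ) ^ 2 := by nlinarith
  have hq : 0 < 1 - ε / 20 := by linarith
  have hD : 0 < R / (2 * Real.pi ^ 2) * (1 - ε / 20) := by positivity
  have hD2 : 0 < 1 + s - ρ := hD.trans_le h1
  unfold g2
  have h3 : R⁻¹ ≤ (Real.sqrt ((1 + s) ^ 2 - (-ρ) ^ 2))⁻¹ := by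
    apply inv_anti₀ (Real.sqrt_pos.2 hd0)
    rw [Real.sqrt_le_left hR.le]
    nlinarith [sq_nonneg ρ]
  have h4 : v ^ 2 / (1 + s + -ρ) ≤ (1 + ε / 2) * G := by
    have e0 : 1 + s + -ρ = 1 + s - ρ := by ring
    rw [e0]
    calc v ^ 2 / (1 + s - ρ) ≤ v ^ 2 / (R / (2 * Real.pi ^ 2) * (1 - ε / 20)) :=
          div_le_div_of_nonneg_left (sq_nonneg _) hD h1
      _ = (1 + ε / 5) ^ 2 / (1 - ε / 20) * G := by
          rw [hv, hG]
          field_simp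
      _ ≤ (1 + ε / 2) * G := by
          apply mul_le_mul_of_nonneg_right _ hG0.le
          rw [div_le_iff₀ hq]
          nlinarith [sq_nonneg ε]
  have h5 : Real.exp (-((1 + ε / 2) * G)) ≤ Real.exp (-(v ^ 2 / (1 + s + -ρ))) := by
    apply Real.exp_le_exp.2
    linarith
  have h6 : Real.exp (-((1 + ε / 2) * G)) = Real.exp (-((1 + ε) * G)) * Real.exp (ε / 2 * G) := by
    rw [← Real.exp_add]; congr 1; ring
  have hX := Real.exp_pos (-((1 + ε) * G))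
  have hE := Real.exp_pos (-((1 + ε / 2) * G))
  calc 2 * Real.exp (-((1 + ε) * G)) = R⁻¹ * (Real.exp (-((1 + ε) * G)) * (2 * R)) := by
        field_simp
    _ ≤ R⁻¹ * (Real.exp (-((1 + ε) * G)) * Real.exp (ε / 2 * G)) := by gcongr
    _ = R⁻¹ * Real.exp (-((1 + ε / 2) * G)) := by rw [h6]
    _ ≤ _ := mul_le_mul h3 h5 hE.le (by positivity)

end

end Pool.Agent.T6.H5.TL
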