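import Pool.Agent.T6.H5.TL.D

/-! # The two tails of the counts: random heights -/

set_option autoImplicit false

namespace Pool.Agent.T6.H5.TL

open Filter Topology MeasureTheory Set
open SP (RHs)
open Pool.Agent.T6.H5.MX

noncomputable section

/-- the conditions on `R` -/
lemma evR {ε A V1 C1 : ℝ} (hε : 0 < ε) (hε1 : ε ≤ 1 / 2) (hA : 1 ≤ A) : ∀ᶠ R : ℝ in atTop,
    ∀ V : ℝ, 0 < V → R * Real.log R ≤ ε * V ^ 2 → V ≤ A * R →
    ∀ G : ℝ, G = Real.pi ^ 2 * V ^ 2 / (2 * R) →
    1000 / ε ≤ R ∧ V1 ≤ V ∧ 3 ≤ G ∧ 34 * Real.exp 1 ^ 2 * G ≤ Real.exp (7 * ε / 10 * G) ∧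
    2 * R ≤ Real.exp (ε / 2 * G) ∧ 3 * Real.log V ≤ ε / 200 * R ∧ G ≤ 5 * A * V ∧
    (1 + ε) * G + 2 ≤ (ε / 20 * V) ^ 2 / 2 ∧ C1 * (V * R) + 4 ≤ V ^ 3 ∧ C1 * R ≤ V ^ 2 := by
  have hpi := Real.pi_pos
  have hpi1 := Real.pi_gt_d2
  have hpi2 := Real.pi_lt_d2
  have hp9 : 9.8 ≤ Real.pi ^ 2 := by nlinarith
  have hp10 : Real.pi ^ 2 ≤ 10 := by nlinarith
  have hlog := Real.tendsto_log_atTop
  -- the condition on `G`
  have hGev : ∀ᶠ G : ℝ in atTop, 34 * Real.exp 1 ^ 2 * G ≤ Real.exp (7 * ε / 10 * G) := by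
    have h1 := pow_exp_ev 1 (a := 7 * ε / 10) (C := 34 * Real.exp 1 ^ 2) (by positivity) one_pos
    filter_upwards [h1, eventually_gt_atTop 0] with G hG hG0
    rw [pow_one] at hG
    have h2 : 34 * Real.exp 1 ^ 2 * (1 + G) * Real.exp (-(7 * ε / 10 * G)) ≤ 1 := by
      refine le_trans (le_of_eq ?_) hG
      ring
    rw [Real.exp_neg, ← div_eq_mul_inv, div_le_one (Real.exp_pos _)] at h2
    have h3 : 0 ≤ 34 * Real.exp 1 ^ 2 := by positivity
    linarith
  obtain ⟨G1, hG1⟩ := hGev.exists_forall_of_atTop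
  have hlR : ∀ᶠ R : ℝ in atTop, 3 * (Real.log A + Real.log R) ≤ ε / 200 * R := by
    have h1 : (fun x : ℝ => Real.log x) =o[atTop] fun x : ℝ => x := Real.isLittleO_log_id_atTop
    have h2 := h1.bound (c := ε / 1200) (by positivity)
    filter_upwards [h2, eventually_ge_atTop 1, eventually_ge_atTop (3 * Real.log A / (ε / 400))] with R a1 a2 a3
    rw [Real.norm_of_nonneg (Real.log_nonneg a2), Real.norm_of_nonneg (by linarith)] at a1
    rw [div_le_iff₀ (by positivity)] at a3
    linarith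
  filter_upwards [eventually_ge_atTop (1000 / ε), eventually_ge_atTop (V1 ^ 2), eventually_ge_atTop 1,
    hlog.eventually_ge_atTop 1, hlog.eventually_ge_atTop G1, hlR,
    eventually_ge_atTop (20000 / ε ^ 2), hlog.eventually_ge_atTop (C1 + 4), hlog.eventually_ge_atTop 3]
    with R r1 r2 r3 r4 r5 r6 r7 r8 r9 V hV hRV hVA G hG
  have hR0 : 0 < R := by linarith
  have hVR : R * Real.log R / ε ≤ V ^ 2 := by
    rw [div_le_iff₀ hε]; linarith
  have hVR2 : 2 * (R * Real.log R) ≤ V ^ 2 := by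
    refine le_trans ?_ hVR
    rw [le_div_iff₀ hε]
    have : 0 ≤ R * Real.log R := by positivity
    nlinarith
  have hVR3 : R ≤ V ^ 2 := by nlinarith
  have hG0 : 0 < G := by rw [hG]; positivity
  have hGl : 4.9 * (Real.log R / ε) ≤ G := by
    have h1 : G = Real.pi ^ 2 / 2 * (V ^ 2 / R) := by rw [hG]; field_simp
    have h2 : Real.log R / ε ≤ V ^ 2 / R := by
      rw [le_div_iff₀ hR0]
      have : Real.log R / ε * R = R * Real.log R / ε := by ring
      rw [this]
      exact hVR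
    rw [h1]
    have h3 : 0 ≤ Real.log R / ε := by positivity
    have h4 : 0 ≤ V ^ 2 / R := by positivity
    calc 4.9 * (Real.log R / ε) ≤ Real.pi ^ 2 / 2 * (Real.log R / ε) :=
          mul_le_mul_of_nonneg_right (by linarith) h3
      _ ≤ _ := mul_le_mul_of_nonneg_left h2 (by positivity)
  have hle : Real.log R ≤ Real.log R / ε := by
    rw [le_div_iff₀ hε]
    nlinarith
  have hV1 : V1 ≤ V := by
    by_contra hcon
    push Not at hcon
    nlinarith
  have hVge1 : 1 ≤ V := by nlinarith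
  refine ⟨r1, hV1, by linarith, hG1 G (by linarith), ?_, ?_, ?_, ?_, ?_, ?_⟩
  · have h1 : 2 * R ≤ Real.exp (2 * Real.log R) := by
      have e : Real.exp (2 * Real.log R) = R * R := by
        rw [two_mul, Real.exp_add, Real.exp_log hR0]
      rw [e]
      have : 2 ≤ R := by
        have h3 : 1000 / ε ≤ R := r1
        rw [div_le_iff₀ hε] at h3
        nlinarith
      nlinarith
    refine h1.trans (Real.exp_le_exp.2 ?_)
    have h2 : ε / 2 * (4.9 * (Real.log R / ε)) ≤ ε / 2 * G := mul_le_mul_of_nonneg_left hGl (by positivity)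
    have e : ε / 2 * (4.9 * (Real.log R / ε)) = 2.45 * Real.log R := by
      field_simp
      norm_num
    rw [e] at h2
    linarith
  · have h1 : Real.log V ≤ Real.log A + Real.log R := by
      rw [← Real.log_mul (by linarith) hR0.ne']
      exact Real.log_le_log hV hVA
    linarith
  · have h1 : G = Real.pi ^ 2 / 2 * (V * V / R) := by rw [hG]; field_simp
    rw [h1]
    have h2 : V * V / R ≤ A * V := by
      rw [div_le_iff₀ hR0]
      nlinarith
    have h3 : 0 ≤ V * V / R := by positivity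
    nlinarith
  · have h1 : G ≤ 5 * (V ^ 2 / R) := by
      have h2 : G = Real.pi ^ 2 / 2 * (V ^ 2 / R) := by rw [hG]; field_simp
      rw [h2]
      have h3 : 0 ≤ V ^ 2 / R := by positivity
      nlinarith
    have h2 : V ^ 2 / R ≤ V ^ 2 * (ε ^ 2 / 20000) := by
      rw [div_le_iff₀ hR0]
      have h3 : 1 ≤ ε ^ 2 / 20000 * R := by
        rw [div_le_iff₀ (by positivity)] at r7
        linarith
      nlinarith [sq_nonneg V]
    have h3 : 3 ≤ G := by linarith
    nlinarith [sq_nonneg (ε * V)]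
  · have h1 : V * (2 * (R * Real.log R)) ≤ V * V ^ 2 := mul_le_mul_of_nonneg_left hVR2 hV.le
    have h2 : V * R * (C1 + 4) ≤ V * R * Real.log R := mul_le_mul_of_nonneg_left r8 (by positivity)
    have h3 : 1 ≤ V * R := by nlinarith
    have h4 : V * R * 3 ≤ V * R * Real.log R := mul_le_mul_of_nonneg_left r9 (by positivity)
    have e : V ^ 3 = V * V ^ 2 := by ring
    rw [e]
    nlinarith
  · have h2 : R * (C1 + 4) ≤ R * Real.log R := mul_le_mul_of_nonneg_left r8 hR0.le
    have h4 : 0 ≤ R * Real.log R := by positivity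
    nlinarith

end

end Pool.Agent.T6.H5.TL
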