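import Pool.Agent.T6.H5.TL.E

/-! # The two tails of the counts: random heights, the theorem -/

set_option autoImplicit false

namespace Pool.Agent.T6.H5.TL

open Filter Topology MeasureTheory Set
open SP (RHs)
open Pool.Agent.T6.H5.MX

noncomputable section

lemma er_le {K δ R B : ℝ} {M : ℕ} (hK : 0 ≤ K) (hKM : 8 * K ≤ M) (hM : Real.exp (-(M : ℝ)) ≤ B) (hδ : δ ≤ B)
    (hR : Real.exp (-R ^ 2 / 2) ≤ B) : er K M 1 R δ ≤ 12 * B := by
  unfold er
  have h1 := fact_bd hK hKM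
  push_cast
  linarith

/-- **the two tails of the counts** -/
theorem LT (hRH : RHs) {ε A : ℝ} (hε : 0 < ε) (hε1 : ε ≤ 1 / 2) (hA : 1 ≤ A) : ∃ r0 : ℕ, 3 ≤ r0 ∧
    ∀ r : ℕ, r0 ≤ r → ∀ V : ℝ, 0 < V → Real.log r * Real.log (Real.log r) ≤ ε * V ^ 2 → V ≤ A * Real.log r →
    ∀ a : ℝ, (r : ℝ) / 2 ≤ a → a ≤ 2 * r → ∃ T0 : ℝ, 10 ≤ T0 ∧ ∀ T : ℝ, T0 ≤ T →
    volume.real {t | t ∈ Icc T (2 * T) ∧ V ≤ |dv T a t|} ≤
      T * Real.exp (-((1 - ε) * (Real.pi ^ 2 * V ^ 2 / (2 * Real.log r)))) ∧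
    ∀ σ : ℝ, σ ^ 2 = 1 → T * Real.exp (-((1 + ε) * (Real.pi ^ 2 * V ^ 2 / (2 * Real.log r)))) ≤
      volume.real {t | t ∈ Icc T (2 * T) ∧ V ≤ σ * dv T a t} := by
  have hpi := Real.pi_pos
  have hpi1 := Real.pi_gt_d2
  have hpi2 := Real.pi_lt_d2
  have hp9 : 9.8 ≤ Real.pi ^ 2 := by nlinarith
  have hp10 : Real.pi ^ 2 ≤ 10 := by nlinarith
  obtain ⟨Kc, hKc⟩ : ∃ Kc : ℝ, Kc = 8 * A + 8 := ⟨_, rfl⟩
  have hKc16 : 16 ≤ Kc := by rw [hKc]; linarith
  obtain ⟨ε2, hε2, hAP⟩ := AP hRH (ε1 := ε / 20) (by positivity)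
  obtain ⟨V0, hV0, hAP⟩ := hAP Kc 3 (by linarith) (by norm_num)
  obtain ⟨V1, hV1⟩ : ∃ V1 : ℝ, V1 = max (max V0 10) (8 * ε2 + 2 / ε2) := ⟨_, rfl⟩
  obtain ⟨R0, hR0⟩ := (evR (V1 := V1) (C1 := 64 * Kc + 256 * Kc + 64 * ε2) hε hε1 hA).exists_forall_of_atTop
  obtain ⟨r1, hr1⟩ := ((Real.tendsto_log_atTop.comp tendsto_natCast_atTop_atTop).eventually_ge_atTop
    R0).exists_forall_of_atTop
  refine ⟨max r1 3, le_max_right _ _, fun r hr V hV hRV hVA a ha1 ha2 => ?_⟩
  have hrr := hr1 r ((le_max_left _ _).trans hr)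
  simp only [Function.comp_apply] at hrr
  have hr3 : 3 ≤ r := (le_max_right _ _).trans hr
  have hrpos : (0 : ℝ) < r := by exact_mod_cast (by omega : 0 < r)
  obtain ⟨R, hR⟩ : ∃ R : ℝ, R = Real.log r := ⟨_, rfl⟩
  rw [← hR] at hrr hRV hVA ⊢
  obtain ⟨G, hG⟩ : ∃ G : ℝ, G = Real.pi ^ 2 * V ^ 2 / (2 * R) := ⟨_, rfl⟩
  rw [← hG]
  obtain ⟨g1, g2, g3, g4, g5, g6, g7, g8, g9, g10⟩ := hR0 R hrr V hV hRV hVA G hG
  clear hR0 hr1
  have hRp : 0 < R := lt_of_lt_of_le (by positivity) g1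
  have hR2000 : 2000 ≤ R := by
    refine le_trans ?_ g1
    rw [le_div_iff₀ hε]
    linarith only [hε1]
  have hV0V : V0 ≤ V := ((le_max_left _ _).trans (le_max_left _ _)).trans (hV1 ▸ g2)
  have hV10 : 10 ≤ V := ((le_max_right _ _).trans (le_max_left _ _)).trans (hV1 ▸ g2)
  have hVε : 8 * ε2 + 2 / ε2 ≤ V := (le_max_right _ _).trans (hV1 ▸ g2)
  have hlV : 0 ≤ Real.log V := Real.log_nonneg (by linarith only [hV10])
  obtain ⟨m, hm⟩ : ∃ m : ℕ, m = ⌊ε2 * V⌋₊ := ⟨_, rfl⟩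
  obtain ⟨hm2, hm4, hAPm⟩ := hAP V hV0V m hm
  clear hAP
  have hm1 : (m : ℝ) ≤ ε2 * V := by rw [hm]; exact Nat.floor_le (by positivity)
  have hm2r : (2 : ℝ) ≤ m := by exact_mod_cast hm2
  -- the ranges
  have her : Real.exp R = r := by rw [hR, Real.exp_log hrpos]
  obtain ⟨x, hx⟩ : ∃ x : ℝ, x = Real.exp (-R) := ⟨_, rfl⟩
  obtain ⟨y, hy⟩ : ∃ y : ℝ, y = (V ^ 3)⁻¹ := ⟨_, rfl⟩
  have hx0 : 0 < x := by rw [hx]; exact Real.exp_pos _
  have hxr : x * r = 1 := by rw [hx, ← her, ← Real.exp_add]; simp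
  have hlx : Real.log x = -R := by rw [hx, Real.log_exp]
  have hV3 : 0 < V ^ 3 := by positivity
  have hy0 : 0 < y := by rw [hy]; positivity
  have hly : Real.log y = -(3 * Real.log V) := by rw [hy, Real.log_inv, Real.log_pow]; push_cast; ring
  have hxy : x ≤ y := by
    rw [← Real.log_le_log_iff hx0 hy0, hlx, hly]
    have : ε / 200 * R ≤ R := by nlinarith only [hε1, hRp]
    linarith only [this, g6]
  have hyV : y * V ^ 3 = 1 := by rw [hy]; field_simp
  have hmV : 8 * (m : ℝ) ≤ V ^ 2 := by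
    have h1 : 8 * ε2 ≤ V := by
      have : 0 < 2 / ε2 := by positivity
      linarith only [this, hVε]
    nlinarith only [h1, hm1, hV]
  have hV23 : V ^ 2 ≤ V ^ 3 := by nlinarith only [sq_nonneg V, hV10]
  have hyκ : y ≤ 1 / (8 * m) := by
    rw [hy, ← one_div]
    apply one_div_le_one_div_of_le (by positivity)
    exact hmV.trans hV23
  have hlyκ : Real.log (1 / (8 * m)) - Real.log y ≤ 3 * Real.log V := by
    rw [hly, one_div, Real.log_inv]
    have : 0 ≤ Real.log (8 * (m : ℝ)) := Real.log_nonneg (by linarith only [hm2r])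
    linarith only [this]
  have ha0 : 0 < a := lt_of_lt_of_le (by positivity) ha1
  have hax : a * x ≤ 2 := by
    calc a * x ≤ 2 * r * x := mul_le_mul_of_nonneg_right ha2 hx0.le
      _ = 2 * (x * r) := by ring
      _ = 2 := by rw [hxr]; norm_num
  have hax2 : 1 / 2 ≤ a * x := by
    calc 1 / 2 = r / 2 * x := by linarith only [hxr]
      _ ≤ a * x := mul_le_mul_of_nonneg_right ha1 hx0.le
  obtain ⟨TA, hTA, hAPT⟩ := hAPm x y hx0 hxy hyκ hlyκ a ha0.le hax
  obtain ⟨lam, hlam⟩ : ∃ lam : ℝ, lam = 8 * m := ⟨_, rfl⟩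
  have hlam1 : 1 ≤ lam := by rw [hlam]; linarith only [hm2r]
  have hlam0 : 0 < lam := by linarith only [hlam1]
  have hlamy : lam * y ≤ 8 * ε2 / V ^ 2 := by
    rw [le_div_iff₀ (by positivity)]
    have h1 : lam ≤ 8 * (ε2 * V) := by rw [hlam]; linarith only [hm1]
    calc lam * y * V ^ 2 ≤ 8 * (ε2 * V) * y * V ^ 2 := by gcongr
      _ = 8 * ε2 * (y * V ^ 3) := by ring
      _ = 8 * ε2 := by rw [hyV, mul_one]
  have hKcp : 0 < Kc := by linarith only [hKc16]
  have hg10 : 64 * ε2 * R ≤ V ^ 2 := by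
    have h1 : 0 ≤ (64 * Kc + 256 * Kc) * R := by positivity
    linarith only [h1, g10]
  have hlamR : lam * y * (Real.log y - Real.log x) ≤ 1 / 8 := by
    have h1 : Real.log y - Real.log x ≤ R := by rw [hly, hlx]; linarith only [hlV]
    have h2 : 0 ≤ Real.log y - Real.log x := by
      have := Real.log_le_log hx0 hxy
      linarith only [this]
    calc lam * y * (Real.log y - Real.log x) ≤ 8 * ε2 / V ^ 2 * R := by gcongr
      _ = 8 * ε2 * R / V ^ 2 := by ring
      _ ≤ 1 / 8 := by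
        rw [div_le_iff₀ (by positivity)]
        linarith only [hg10]
  have hlamy2 : lam * y ≤ 1 / 2 := by
    refine hlamy.trans ?_
    rw [div_le_iff₀ (by positivity)]
    nlinarith only [hg10, hR2000, hε2]
  -- the moments
  obtain ⟨M, hM⟩ : ∃ M : ℕ, M = ⌊V ^ 3 / 4⌋₊ := ⟨_, rfl⟩
  have hM1 : (M : ℝ) ≤ V ^ 3 / 4 := by rw [hM]; exact Nat.floor_le (by positivity)
  have hM2 : V ^ 3 / 4 - 1 < M := by rw [hM]; exact Nat.sub_one_lt_floor _
  have hMy : 4 * (M : ℝ) * y ≤ 1 := by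
    rw [← hyV]
    calc 4 * (M : ℝ) * y ≤ 4 * (V ^ 3 / 4) * y := by gcongr
      _ = y * V ^ 3 := by ring
  obtain ⟨K, hK⟩ : ∃ K : ℝ, K = 8 * Kc * V * R := ⟨_, rfl⟩
  have hK0 : 0 ≤ K := by rw [hK]; positivity
  have hVR : 0 < V * R := by positivity
  have hKM8 : 8 * K ≤ M := by
    have h1 : 256 * Kc * (V * R) + 4 ≤ V ^ 3 := by
      have h2 : 0 ≤ (64 * Kc + 64 * ε2) * (V * R) := by positivity
      linarith only [h2, g9]
    rw [hK]
    linarith only [h1, hM2]
  have hKM : K ≤ M / 2 := by linarith only [hKM8, hK0]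
  obtain ⟨Rc, hRc⟩ : ∃ Rc : ℝ, Rc = Real.sqrt (2 * Kc * V) := ⟨_, rfl⟩
  have hRc0 : 0 ≤ Rc := by rw [hRc]; exact Real.sqrt_nonneg _
  have hRc2 : Rc ^ 2 = 2 * Kc * V := by rw [hRc, Real.sq_sqrt (by positivity)]
  obtain ⟨B, hB⟩ : ∃ B : ℝ, B = Real.exp (-(Kc * V)) := ⟨_, rfl⟩
  have hB0 : 0 < B := by rw [hB]; exact Real.exp_pos _
  obtain ⟨TE, hTE, hE⟩ := lowE hx0 hxy M hMy K Rc hK0 hKM hRc0 hB0
  -- the variances
  have hev := ((cv_up (lam := lam) hx0 hxy hlam0 one_pos).and (cv_var hx0 hxy hlam1 hlamy2 one_pos)).and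
    (cv_far hx0 hxy hlam1 hlamy2 ha0 (show (0 : ℝ) < 1 by norm_num))
  obtain ⟨Tv, hTv⟩ := hev.exists_forall_of_atTop
  refine ⟨max (max TA TE) Tv, hTA.trans ((le_max_left _ _).trans (le_max_left _ _)), fun T hT => ?_⟩
  have hTTA : TA ≤ T := ((le_max_left _ _).trans (le_max_left _ _)).trans hT
  have hTTE : TE ≤ T := ((le_max_right _ _).trans (le_max_left _ _)).trans hT
  obtain ⟨⟨v1, v2⟩, v3⟩ := hTv T ((le_max_right _ _).trans hT)
  have hT10 : 10 ≤ T := hTA.trans hTTA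
  have hT0 : 0 < T := by linarith only [hT10]
  have hAT := hAPT T hTTA
  have hET := hE T hTTE lam hlam0
  clear hAPT hE hTv hAPm
  rw [← hB] at hAT
  obtain ⟨c0, hc0⟩ : ∃ c : ℝ, c = cv lam T x y 0 := ⟨_, rfl⟩
  obtain ⟨ca, hca⟩ : ∃ c : ℝ, c = cv lam T x y a := ⟨_, rfl⟩
  have hcabs := cv_abs lam T x y a
  rw [← hc0] at v1 v2 hET hcabs
  rw [← hca] at v3 hcabs
  have hc0p : 0 ≤ c0 := by rw [hc0]; exact cv_zero_nonneg _ _ _ _
  have hip : 0 < 1 / Real.pi ^ 2 := by positivity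
  have hip1 : 1 / Real.pi ^ 2 ≤ 1 / 9.8 := one_div_le_one_div_of_le (by norm_num) hp9
  have hc0up : c0 ≤ R / Real.pi ^ 2 + 1 := by
    have h1 : 1 / Real.pi ^ 2 * (Real.log y - Real.log x) ≤ 1 / Real.pi ^ 2 * R := by
      apply mul_le_mul_of_nonneg_left _ hip.le
      rw [hly, hlx]; linarith only [hlV]
    have e : 1 / Real.pi ^ 2 * R = R / Real.pi ^ 2 := by ring
    linarith only [h1, e, v1]
  have hc0lo : (R - 3 * Real.log V) / Real.pi ^ 2 - 2 ≤ c0 := by
    have h1 := (abs_le.1 v2).1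
    have h2 : 1 / Real.pi ^ 2 * (32 * (lam * y * (Real.log y - Real.log x))) ≤ 1 / 9.8 * (32 * (1 / 8)) := by
      apply mul_le_mul hip1 (by linarith only [hlamR]) _ (by norm_num)
      have h3 : 0 ≤ Real.log y - Real.log x := by
        have := Real.log_le_log hx0 hxy
        linarith only [this]
      positivity
    have e : 1 / Real.pi ^ 2 * (Real.log y - Real.log x) = (R - 3 * Real.log V) / Real.pi ^ 2 := by
      rw [hly, hlx]; ring
    rw [e] at h1
    linarith only [h1, h2]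
  have hca4 : |ca| ≤ 4 := by
    refine v3.trans ?_
    have h1 : 1 / (a * x) ≤ 2 := by
      rw [div_le_iff₀ (by positivity)]
      linarith only [hax2]
    linarith only [h1, hlamR]
  obtain ⟨hca1, hca2⟩ := abs_le.1 hca4
  -- the exponential bounds
  have hKG : (1 + ε) * G ≤ (8 * A) * V := by
    have h1 : (1 + ε) * G ≤ (1 + 1 / 2) * (5 * A * V) := by
      apply mul_le_mul (by linarith only [hε1]) g7 (by linarith only [g3]) (by norm_num)
    have h2 : 0 < A * V := by positivity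
    linarith only [h1, h2]
  have hBX : 13 * B ≤ 1 / 2 * Real.exp (-((1 + ε) * G)) := by
    have h1 : B ≤ Real.exp (-((1 + ε) * G)) * Real.exp (-(8 * V)) := by
      rw [hB, ← Real.exp_add]
      apply Real.exp_le_exp.2
      rw [hKc]
      linarith only [hKG]
    have h2 : 26 * Real.exp (-(8 * V)) ≤ 1 := by
      rw [Real.exp_neg, ← div_eq_mul_inv, div_le_one (Real.exp_pos _)]
      have := Real.add_one_le_exp (8 * V)
      linarith only [this, hV10]
    have h3 := Real.exp_pos (-((1 + ε) * G))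
    have h4 := mul_le_mul_of_nonneg_left h2 h3.le
    linarith only [h1, h4]
  have hXY : Real.exp (-((1 + ε) * G)) ≤ Real.exp (-((1 - ε) * G)) := by
    apply Real.exp_le_exp.2
    have : 0 < ε * G := mul_pos hε (by linarith only [g3])
    linarith only [this]
  have hDle : ∀ t, t ∈ Icc T (2 * T) ∧ ¬ (|dv T a t - Dm lam T x y a t| ≤ ε / 20 * V) ↔
      t ∈ Icc T (2 * T) ∧ ¬ (|dv T a t -
      ((BB (Real.log T / (8 * m)) T x y (t + 2 * Real.pi * a / Real.log T)).im -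
        (BB (Real.log T / (8 * m)) T x y t).im)| ≤ ε / 20 * V) := by
    intro t
    rw [hlam]
    rfl
  obtain ⟨E1, hE1⟩ : ∃ E1 : Set ℝ, E1 = {t | t ∈ Icc T (2 * T) ∧
    ¬ (|dv T a t - Dm lam T x y a t| ≤ ε / 20 * V)} := ⟨_, rfl⟩
  have hE1le : volume.real E1 ≤ T * B := by
    rw [hE1]
    simp_rw [hDle]
    exact hAT
  have hfin : ∀ S : Set ℝ, S ⊆ Icc T (2 * T) → volume S ≠ ⊤ := fun S hS =>
    ne_top_of_le_ne_top (b := volume (Icc T (2 * T))) (by simp [Real.volume_Icc]) (measure_mono hS)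
  have hE1f : volume E1 ≠ ⊤ := hfin _ (by rw [hE1]; exact fun t ht => ht.1)
  constructor
  · -- the upper tail
    obtain ⟨W, hW⟩ : ∃ W : ℝ, W = 2 * R / Real.pi ^ 2 + 12 := ⟨_, rfl⟩
    obtain ⟨V', hV'⟩ : ∃ V' : ℝ, V' = (1 - ε / 10) * V := ⟨_, rfl⟩
    obtain ⟨m', hm'⟩ : ∃ m' : ℕ, m' = ⌊V' ^ 2 / W⌋₊ := ⟨_, rfl⟩
    obtain ⟨n1, n2, n3, n4⟩ := numU hε hε1 (by
      refine le_trans ?_ g1
      exact div_le_div_of_nonneg_right (by norm_num) hε.le) hV hG hW hV' hm' g3 g4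
    have hV'0 : 0 < V' := by
      rw [hV']
      have : 0 < 1 - ε / 10 := by linarith only [hε1]
      positivity
    have hm'y : 4 * (m' : ℝ) * y ≤ 1 := by
      rw [← hyV]
      have h1 : 4 * (m' : ℝ) ≤ V ^ 3 := by
        have h2 : (m' : ℝ) ≤ V ^ 2 := by
          refine n3.trans ?_
          rw [hG, div_le_iff₀ (by positivity)]
          have h3 : V ^ 2 * Real.pi ^ 2 ≤ V ^ 2 * (2 * R) :=
            mul_le_mul_of_nonneg_left (by linarith only [hp10, hR2000]) (sq_nonneg V)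
          linarith only [h3]
        have h4 : V ^ 2 * 4 ≤ V ^ 2 * V := mul_le_mul_of_nonneg_left (by linarith only [hV10]) (sq_nonneg V)
        have h5 : V ^ 3 = V ^ 2 * V := by ring
        linarith only [h2, h4, h5]
      calc 4 * (m' : ℝ) * y ≤ V ^ 3 * y := mul_le_mul_of_nonneg_right h1 hy0.le
        _ = y * V ^ 3 := mul_comm _ _
    have hup := upT (T := T) (x := x) (y := y) (lam := lam) (a := a) (by linarith only [hT10]) hxy hy0.le m' hm'y (W := W) (by
      rw [← hc0, ← hca, hW]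
      have e : 2 * R / Real.pi ^ 2 = 2 * (R / Real.pi ^ 2) := by ring
      rw [e]
      linarith only [hc0up, hca1]) hV'0
    have hW0 : 0 ≤ W := by rw [hW]; positivity
    have h5 := fm_sharp n1 hW0 hV'0 n2
    have h6 : T * (17 * (m'.factorial * W ^ m' / V' ^ (2 * m'))) ≤
        T * (1 / 2 * Real.exp (-((1 - ε) * G))) := by
      apply mul_le_mul_of_nonneg_left _ hT0.le
      exact (mul_le_mul_of_nonneg_left h5 (by norm_num)).trans n4
    obtain ⟨E2, hE2⟩ : ∃ E2 : Set ℝ, E2 = {t | t ∈ Icc T (2 * T) ∧ V' < |Dm lam T x y a t|} := ⟨_, rfl⟩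
    rw [← hE2] at hup
    have hE2f : volume E2 ≠ ⊤ := hfin _ (by rw [hE2]; exact fun t ht => ht.1)
    have hsub : {t | t ∈ Icc T (2 * T) ∧ V ≤ |dv T a t|} ⊆ E1 ∪ E2 := by
      rintro t ⟨ht1, ht2⟩
      by_cases h : |dv T a t - Dm lam T x y a t| ≤ ε / 20 * V
      · right
        rw [hE2]
        refine ⟨ht1, ?_⟩
        have h7 := abs_sub_abs_le_abs_sub (dv T a t) (Dm lam T x y a t)
        rw [hV']
        have : 0 < ε * V := by positivity
        linarith only [this, h7, h, ht2]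
      · left
        rw [hE1]
        exact ⟨ht1, h⟩
    calc volume.real {t | t ∈ Icc T (2 * T) ∧ V ≤ |dv T a t|} ≤ volume.real (E1 ∪ E2) :=
          measureReal_mono hsub (measure_union_lt_top hE1f.lt_top hE2f.lt_top).ne
      _ ≤ volume.real E1 + volume.real E2 := measureReal_union_le _ _
      _ ≤ T * B + T * (1 / 2 * Real.exp (-((1 - ε) * G))) := add_le_add hE1le (hup.trans h6)
      _ ≤ _ := by
        have h8 : B ≤ 1 / 2 * Real.exp (-((1 - ε) * G)) := by linarith only [hBX, hXY, hB0]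
        have h9 := mul_le_mul_of_nonneg_left h8 hT0.le
        linarith only [h9]
  · -- the lower tail
    intro σ hσ
    obtain ⟨v, hv⟩ : ∃ v : ℝ, v = (1 + ε / 5) * V / 2 := ⟨_, rfl⟩
    obtain ⟨w, hw⟩ : ∃ w : ℝ, w = ε / 20 * V := ⟨_, rfl⟩
    have hw0 : 0 < w := by rw [hw]; positivity
    have h1 := hET σ hσ (by
      rw [hRc2, hK]
      have h2 : c0 ≤ R := by
        refine hc0up.trans ?_
        have h3 : R / Real.pi ^ 2 ≤ R / 9 :=
          div_le_div_of_nonneg_left hRp.le (by norm_num) (by linarith only [hp9])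
        linarith only [h3, hR2000]
      calc 4 * (2 * Kc * V) * c0 ≤ 4 * (2 * Kc * V) * R := mul_le_mul_of_nonneg_left h2 (by positivity)
        _ = _ := by ring) a v
    rw [← hca] at h1
    have h2 := lowT (σ := σ) (lam := lam) (T := T) (x := x) (y := y) (a := a) (v := v) (w := w) hT0 hw0
    have h3 := numL (s := c0 / 2) (ρ := ca / 2) hε hε1 hRp hV hG hv (by linarith only [hc0p]) (by
      rw [abs_div, abs_of_pos (by norm_num : (0 : ℝ) < 2)]
      linarith only [hcabs]) (by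
        have e1 : R / (2 * Real.pi ^ 2) * (1 - ε / 20) =
          (R / Real.pi ^ 2 - ε / 20 * (R / Real.pi ^ 2)) / 2 := by
            field_simp
        have e2 : (R - 3 * Real.log V) / Real.pi ^ 2 = R / Real.pi ^ 2 - 3 * Real.log V / Real.pi ^ 2 := by
          ring
        have e3 : 3 * Real.log V / Real.pi ^ 2 ≤ ε / 200 * (R / Real.pi ^ 2) := by
          rw [div_le_iff₀ (by positivity)]
          have : ε / 200 * (R / Real.pi ^ 2) * Real.pi ^ 2 = ε / 200 * R := by field_simp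
          rw [this]
          exact g6
        have e4 : 4 ≤ (ε / 20 - ε / 200) * (R / Real.pi ^ 2) := by
          have h4 : 100 / ε ≤ R / Real.pi ^ 2 := by
            rw [le_div_iff₀ (by positivity)]
            refine le_trans ?_ g1
            rw [div_mul_eq_mul_div]
            apply div_le_div_of_nonneg_right _ hε.le
            linarith only [hp10]
          have h5 : (ε / 20 - ε / 200) * (100 / ε) = 4.5 := by field_simp; norm_num
          have h6 := mul_le_mul_of_nonneg_left h4 (by linarith only [hε] : 0 ≤ ε / 20 - ε / 200)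
          linarith only [h5, h6]
        rw [e1]
        rw [e2] at hc0lo
        linarith only [hc0lo, e3, e4, hca2]) (by
        have h3 : R / Real.pi ^ 2 ≤ R / 9 :=
          div_le_div_of_nonneg_left hRp.le (by norm_num) (by linarith only [hp9])
        linarith only [h3, hc0up, hR2000]) g5
    have h4 : er K M 1 Rc B ≤ 12 * B := by
      refine er_le hK0 hKM8 ?_ le_rfl ?_
      · rw [hB]
        apply Real.exp_le_exp.2
        have h5 : Kc * V ≤ 8 * K := by
          rw [hK]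
          have : Kc * V * 1 ≤ Kc * V * (64 * R) :=
            mul_le_mul_of_nonneg_left (by linarith only [hR2000]) (by positivity)
          linarith only [this]
        linarith only [h5, hKM8]
      · rw [hB]
        apply Real.exp_le_exp.2
        rw [neg_div, hRc2]
        linarith only
    have h5 : Real.exp (-w ^ 2 / 2) ≤ 1 / 2 * Real.exp (-((1 + ε) * G)) := by
      have e1 : (1 / 2 : ℝ) * Real.exp (-((1 + ε) * G)) ≥ Real.exp (-1) * Real.exp (-((1 + ε) * G)) := by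
        apply mul_le_mul_of_nonneg_right _ (Real.exp_pos _).le
        rw [Real.exp_neg, ← one_div]
        apply one_div_le_one_div_of_le (by norm_num)
        have := Real.add_one_le_exp (1 : ℝ)
        linarith only [this]
      refine le_trans ?_ e1
      rw [← Real.exp_add]
      apply Real.exp_le_exp.2
      rw [hw, neg_div]
      linarith only [g8]
    obtain ⟨E3, hE3⟩ : ∃ E3 : Set ℝ, E3 = {t | t ∈ Icc T (2 * T) ∧ 2 * v - 2 * w ≤ σ * Dm lam T x y a t} :=
      ⟨_, rfl⟩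
    rw [← hE3] at h2
    obtain ⟨E4, hE4⟩ : ∃ E4 : Set ℝ, E4 = {t | t ∈ Icc T (2 * T) ∧ V ≤ σ * dv T a t} := ⟨_, rfl⟩
    rw [← hE4]
    have hE4f : volume E4 ≠ ⊤ := hfin _ (by rw [hE4]; exact fun t ht => ht.1)
    have hsub : E3 ⊆ E1 ∪ E4 := by
      intro t ht
      rw [hE3] at ht
      obtain ⟨ht1, ht2⟩ := ht
      by_cases h : |dv T a t - Dm lam T x y a t| ≤ ε / 20 * V
      · right
        rw [hE4]
        refine ⟨ht1, ?_⟩
        have h7 : |σ * (dv T a t - Dm lam T x y a t)| ≤ ε / 20 * V := by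
          rw [abs_mul]
          have : |σ| = 1 := (pow_eq_one_iff_of_nonneg (abs_nonneg σ) two_ne_zero).1 (by rw [sq_abs, hσ])
          rw [this, one_mul]
          exact h
        have h8 := (abs_le.1 h7).1
        rw [hv, hw] at ht2
        have : 0 < ε * V := by positivity
        linarith only [this, h8, ht2]
      · left
        rw [hE1]
        exact ⟨ht1, h⟩
    have h9 : volume.real E3 ≤ volume.real E1 + volume.real E4 :=
      (measureReal_mono hsub (measure_union_lt_top hE1f.lt_top hE4f.lt_top).ne).trans (measureReal_union_le _ _)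
    have h10 := mul_le_mul_of_nonneg_left h3 hT0.le
    have h11 := mul_le_mul_of_nonneg_left h4 hT0.le
    have h12 := mul_le_mul_of_nonneg_left h5 hT0.le
    have h13 := mul_le_mul_of_nonneg_left hBX hT0.le
    linarith only [h1, h2, h9, h10, h11, h12, h13, hE1le]

end

end Pool.Agent.T6.H5.TL
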