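import Pool.Agent.T6.H5.TL.F

/-! # Short windows contain zeros, but not many -/

set_option autoImplicit false

namespace Pool.Agent.T6.H5.TL

open Filter Topology MeasureTheory Set
open SP (RHs)
open Pool.Agent.T6.H5.MX

noncomputable section

/-- **short windows** -/
theorem SMW (hRH : RHs) {ε4 K : ℝ} (hε4 : 0 < ε4) (hK : 0 ≤ K) : ∃ V0 : ℝ, 1 ≤ V0 ∧ ∀ V : ℝ, V0 ≤ V →
    ∃ T0 : ℝ, 10 ≤ T0 ∧ ∀ T : ℝ, T0 ≤ T →
    volume.real {t | t ∈ Icc T (2 * T) ∧ ε4 / 2 * V < |dv T (ε4 * V) t|} ≤ T * Real.exp (-(K * V)) := by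
  have hpi := Real.pi_pos
  have hpi3 := Real.pi_gt_three
  obtain ⟨ε2, hε2, hAP⟩ := AP hRH (ε1 := ε4 / 4) (by positivity)
  obtain ⟨V0, hV0, hAP⟩ := hAP (K + 1) 0 (by linarith) le_rfl
  obtain ⟨Cs, hCs⟩ : ∃ Cs : ℝ, Cs = |Real.log (ε4 / (4 * ε2))| := ⟨_, rfl⟩
  have hCs0 : 0 ≤ Cs := by rw [hCs]; exact abs_nonneg _
  obtain ⟨W, hW⟩ : ∃ W : ℝ, W = 4 * (Cs + 1) := ⟨_, rfl⟩
  have hW0 : 0 < W := by rw [hW]; positivity
  obtain ⟨V1, hV1⟩ := (evA (ε1 := ε4 / 4) (ε2 := ε2) (K := K + 1) (W0 := W) (C4 := 0) (CQ := 0) (C3 := 0)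
    (Cw := 0) (by positivity) hε2).exists_forall_of_atTop
  refine ⟨max V0 V1, hV0.trans (le_max_left _ _), fun V hV => ?_⟩
  obtain ⟨g1, g2, g3, -, -, -, g7, g8⟩ := hV1 V ((le_max_right _ _).trans hV)
  have hVp : 0 < V := by linarith only [g1]
  obtain ⟨m, hm⟩ : ∃ m : ℕ, m = ⌊ε2 * V⌋₊ := ⟨_, rfl⟩
  obtain ⟨hm2, hm4, hAPm⟩ := hAP V ((le_max_left _ _).trans hV) m hm
  have hm1 : (m : ℝ) ≤ ε2 * V := by rw [hm]; exact Nat.floor_le (by positivity)
  have hm2r : (2 : ℝ) ≤ m := by exact_mod_cast hm2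
  obtain ⟨a, ha⟩ : ∃ a : ℝ, a = ε4 * V := ⟨_, rfl⟩
  have ha0 : 0 < a := by rw [ha]; positivity
  rw [← ha]
  obtain ⟨κ, hκ⟩ : ∃ κ : ℝ, κ = 1 / (8 * m) := ⟨_, rfl⟩
  have hκ0 : 0 < κ := by rw [hκ]; positivity
  have hκm : 4 * (m : ℝ) * κ = 1 / 2 := by rw [hκ]; field_simp; norm_num
  obtain ⟨x, hx⟩ : ∃ x : ℝ, x = min (1 / a) κ := ⟨_, rfl⟩
  have hx0 : 0 < x := by rw [hx]; positivity
  have hxκ : x ≤ κ := by rw [hx]; exact min_le_right _ _
  have hax : a * x ≤ 2 := by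
    have h1 : x ≤ 1 / a := by rw [hx]; exact min_le_left _ _
    calc a * x ≤ a * (1 / a) := mul_le_mul_of_nonneg_left h1 ha0.le
      _ = 1 := by field_simp
      _ ≤ 2 := by norm_num
  have hlog : Real.log κ - Real.log x ≤ Cs := by
    rcases min_choice (1 / a) κ with h | h
    · rw [hx, h, hκ, ← Real.log_div (by positivity) (by positivity)]
      have e : 1 / (8 * (m : ℝ)) / (1 / a) = a / (8 * m) := by field_simp
      rw [e, hCs]
      refine le_trans (Real.log_le_log (by positivity) ?_) (le_abs_self _)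
      rw [ha, div_le_div_iff₀ (by positivity) (by positivity)]
      have h2 : ε4 * V * (4 * ε2) ≤ ε4 * (8 * m) := by
        have h3 : ε4 * (ε2 * V / 2) ≤ ε4 * m := mul_le_mul_of_nonneg_left hm4 hε4.le
        linarith only [h3]
      exact h2
    · rw [hx, h, sub_self]
      exact hCs0
  obtain ⟨TA, hTA, hAPT⟩ := hAPm x κ hx0 hxκ (by rw [hκ]) (by rw [hκ]; simp) a ha0.le hax
  obtain ⟨lam, hlam⟩ : ∃ lam : ℝ, lam = 8 * m := ⟨_, rfl⟩
  have hlam0 : 0 < lam := by rw [hlam]; linarith only [hm2r]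
  obtain ⟨Tv, hTv⟩ := (cv_up (lam := lam) hx0 hxκ hlam0 one_pos).exists_forall_of_atTop
  refine ⟨max TA Tv, hTA.trans (le_max_left _ _), fun T hT => ?_⟩
  have hTTA : TA ≤ T := (le_max_left _ _).trans hT
  have v1 := hTv T ((le_max_right _ _).trans hT)
  have hAT := hAPT T hTTA
  have hT10 : 10 ≤ T := hTA.trans hTTA
  have hT0 : 0 < T := by linarith only [hT10]
  have hcabs := cv_abs lam T x κ a
  have hc0up : cv lam T x κ 0 ≤ Cs + 1 := by
    refine v1.trans ?_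
    have hip : 0 < 1 / Real.pi ^ 2 := by positivity
    have hip1 : 1 / Real.pi ^ 2 ≤ 1 := by
      rw [div_le_one (by positivity)]
      nlinarith only [hpi3]
    have h2 : 0 ≤ Real.log κ - Real.log x := by
      have := Real.log_le_log hx0 hxκ
      linarith only [this]
    have h3 : 1 / Real.pi ^ 2 * (Real.log κ - Real.log x) ≤ 1 * Cs :=
      mul_le_mul hip1 hlog h2 (by norm_num)
    linarith only [h3]
  obtain ⟨V', hV'⟩ : ∃ V' : ℝ, V' = ε4 / 4 * V := ⟨_, rfl⟩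
  have hV'0 : 0 < V' := by rw [hV']; positivity
  have hup := upT (T := T) (x := x) (y := κ) (lam := lam) (a := a) (by linarith only [hT10]) hxκ hκ0.le m
    (by linarith only [hκm]) (W := W) (by
      rw [hW]
      have := (abs_le.1 hcabs).1
      linarith only [this, hc0up]) hV'0
  obtain ⟨B, hB⟩ : ∃ B : ℝ, B = Real.exp (-((K + 1) * V)) := ⟨_, rfl⟩
  have hB0 : 0 < B := by rw [hB]; exact Real.exp_pos _
  rw [← hB] at hAT
  have h5 := fm_le m hW0.le hV'0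
  have h6 : (m * W / V' ^ 2) ^ m ≤ B := by
    rw [hB]
    refine tlV hε2 (by linarith only [hK]) (by positivity) ?_ hm4
    refine le_trans ?_ g3
    rw [hV']
    have e : ε2 * W / ((ε4 / 4) ^ 2 * V) = (ε2 * V) * W / (ε4 / 4 * V) ^ 2 := by field_simp
    rw [e]
    gcongr
  have h7 : T * (17 * (m.factorial * W ^ m / V' ^ (2 * m))) ≤ T * (17 * B) := by
    apply mul_le_mul_of_nonneg_left _ hT0.le
    exact mul_le_mul_of_nonneg_left (h5.trans h6) (by norm_num)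
  have hfin : ∀ S : Set ℝ, S ⊆ Icc T (2 * T) → volume S ≠ ⊤ := fun S hS =>
    ne_top_of_le_ne_top (b := volume (Icc T (2 * T))) (by simp [Real.volume_Icc]) (measure_mono hS)
  obtain ⟨E1, hE1⟩ : ∃ E1 : Set ℝ, E1 = {t | t ∈ Icc T (2 * T) ∧ ¬ (|dv T a t -
      ((BB (Real.log T / (8 * m)) T x κ (t + 2 * Real.pi * a / Real.log T)).im -
        (BB (Real.log T / (8 * m)) T x κ t).im)| ≤ ε4 / 4 * V)} := ⟨_, rfl⟩
  obtain ⟨E2, hE2⟩ : ∃ E2 : Set ℝ, E2 = {t | t ∈ Icc T (2 * T) ∧ V' < |Dm lam T x κ a t|} := ⟨_, rfl⟩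
  rw [← hE1] at hAT
  rw [← hE2] at hup
  have hE1f : volume E1 ≠ ⊤ := hfin _ (by rw [hE1]; exact fun t ht => ht.1)
  have hE2f : volume E2 ≠ ⊤ := hfin _ (by rw [hE2]; exact fun t ht => ht.1)
  have hsub : {t | t ∈ Icc T (2 * T) ∧ ε4 / 2 * V < |dv T a t|} ⊆ E1 ∪ E2 := by
    rintro t ⟨ht1, ht2⟩
    by_cases h : |dv T a t - ((BB (Real.log T / (8 * m)) T x κ (t + 2 * Real.pi * a / Real.log T)).im -
        (BB (Real.log T / (8 * m)) T x κ t).im)| ≤ ε4 / 4 * V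
    · right
      rw [hE2]
      refine ⟨ht1, ?_⟩
      have hD : Dm lam T x κ a t = (BB (Real.log T / (8 * m)) T x κ (t + 2 * Real.pi * a / Real.log T)).im -
        (BB (Real.log T / (8 * m)) T x κ t).im := by rw [hlam]; rfl
      rw [← hD] at h
      have h8 := abs_sub_abs_le_abs_sub (dv T a t) (Dm lam T x κ a t)
      rw [hV']
      linarith only [h8, h, ht2]
    · left
      rw [hE1]
      exact ⟨ht1, h⟩
  calc volume.real {t | t ∈ Icc T (2 * T) ∧ ε4 / 2 * V < |dv T a t|} ≤ volume.real (E1 ∪ E2) :=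
        measureReal_mono hsub (measure_union_lt_top hE1f.lt_top hE2f.lt_top).ne
    _ ≤ volume.real E1 + volume.real E2 := measureReal_union_le _ _
    _ ≤ T * B + T * (17 * B) := add_le_add hAT (hup.trans h7)
    _ ≤ _ := by
      have e1 : Real.exp (-(K * V)) = B * Real.exp V := by
        rw [hB, ← Real.exp_add]; congr 1; ring
      have h8 : 18 * B ≤ Real.exp (-(K * V)) := by
        rw [e1]
        nlinarith only [g8, hB0]
      have h9 := mul_le_mul_of_nonneg_left h8 hT0.le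
      linarith only [h9]

end

end Pool.Agent.T6.H5.TL
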