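import Pool.Agent.T6.H5.TL.G
import Pool.Agent.T6.H5.MX.LJ

/-! # Gap sums and counts, the deterministic part -/

set_option autoImplicit false

namespace Pool.Agent.T6.H5.TL

open Filter Topology MeasureTheory Set
open SG (ord NZ)
open SP (RHs)
open Pool.Agent.T6.H5.MX
open Pool.Agent.Y743.NC (ff dev dev_nonneg dev_int)
open Pool.Agent.Y743.LR (yv)
open Pool.Agent.R320.CL (SS SS_ge)
open Pool.Agent.R320.JL (SS_gL varB)

noncomputable section

lemma unit_facts {T t : ℝ} (hT : 1 < T) :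
    (∀ (a : ℝ) (m : ℕ), 1 ≤ m → (m ≤ NZ (t + a * (2 * Real.pi / Real.log T)) ↔
      (ord m - t) / (2 * Real.pi / Real.log T) ≤ a)) ∧
    (∀ a : ℝ, (NZ (t + a * (2 * Real.pi / Real.log T)) : ℝ) = NZ t + a + dv T a t) ∧
    ∀ n b : ℕ, ff T b n = (ord (n + b) - t) / (2 * Real.pi / Real.log T) -
      (ord n - t) / (2 * Real.pi / Real.log T) - b := by
  have hpi := Real.pi_pos
  have hL : 0 < Real.log T := Real.log_pos hT
  have hcp : 0 < 2 * Real.pi / Real.log T := by positivity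
  refine ⟨?_, ?_, ?_⟩
  · intro a m hm
    rw [← SG.ord_le_iff hm, div_le_iff₀ hcp]
    constructor <;> intro h <;> linarith
  · intro a
    unfold dv
    have e : t + 2 * Real.pi * a / Real.log T = t + a * (2 * Real.pi / Real.log T) := by ring
    rw [e]
    ring
  · intro n b
    unfold ff yv
    field_simp
    ring

/-- the deterministic step, upper bound -/
lemma detU {T t V ε4 : ℝ} {n r : ℕ} (hT : 1 < T) (hn : 1 ≤ n)
    (t1 : ord n - 2 * Real.pi / Real.log T ≤ t) (t2 : t < ord n)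
    (h4 : |dv T (ε4 * V) t| ≤ ε4 / 2 * V) (hu : 1 ≤ ε4 / 2 * V) (hff : V - 1 ≤ |ff T r n|) :
    (1 - 2 * ε4) * V ≤ |dv T (r + V - 1) t| ∨ (1 - 2 * ε4) * V ≤ |dv T (r - V + 2) t| := by
  have hpi := Real.pi_pos
  have hL : 0 < Real.log T := Real.log_pos hT
  obtain ⟨key, hdv, hffe⟩ := unit_facts (t := t) hT
  obtain ⟨c, hc⟩ : ∃ c : ℝ, c = 2 * Real.pi / Real.log T := ⟨_, rfl⟩
  rw [← hc] at key hdv hffe t1
  have hcp : 0 < c := by rw [hc]; positivity
  obtain ⟨y, hy⟩ : ∃ y : ℝ, y = (ord n - t) / c := ⟨_, rfl⟩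
  have hy0 : 0 < y := by rw [hy]; exact div_pos (by linarith) hcp
  have hy1 : y ≤ 1 := by rw [hy, div_le_iff₀ hcp]; linarith
  obtain ⟨i, hi⟩ : ∃ i : ℝ, i = (n : ℝ) - NZ t := ⟨_, rfl⟩
  have hi1 : 1 ≤ i := by
    have h1 : NZ t < n := by
      by_contra hcon
      push Not at hcon
      have := (SG.ord_le_iff hn _).mpr hcon
      linarith
    have h2 : (NZ t : ℝ) + 1 ≤ n := by exact_mod_cast h1
    linarith
  have hεV : 2 ≤ ε4 * V := by linarith
  have hiE : i ≤ 3 / 2 * (ε4 * V) := by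
    have h1 : n ≤ NZ (t + ε4 * V * c) := (key (ε4 * V) n hn).2 (by rw [← hy]; linarith)
    have h2 : (n : ℝ) ≤ NZ (t + ε4 * V * c) := by exact_mod_cast h1
    rw [hdv] at h2
    have := (abs_le.1 h4).2
    linarith
  have hffr := hffe n r
  rw [← hy] at hffr
  obtain ⟨x, hx⟩ : ∃ x : ℝ, x = (ord (n + r) - t) / c := ⟨_, rfl⟩
  rw [← hx] at hffr
  have hnr : 1 ≤ n + r := by omega
  rcases le_abs.1 hff with h | h
  · left
    have h1 : (r : ℝ) + V - 1 < x := by linarith
    have h2 : ¬ (n + r ≤ NZ (t + (r + V - 1) * c)) := by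
      rw [key _ _ hnr, ← hx]
      linarith
    push Not at h2
    have h3 : (NZ (t + (r + V - 1) * c) : ℝ) < n + r := by exact_mod_cast h2
    rw [hdv] at h3
    rw [le_abs]
    right
    linarith
  · right
    have h1 : x ≤ (r : ℝ) - V + 2 := by linarith
    have h2 : n + r ≤ NZ (t + (r - V + 2) * c) := (key _ _ hnr).2 (by rw [← hx]; exact h1)
    have h3 : (n : ℝ) + r ≤ NZ (t + (r - V + 2) * c) := by exact_mod_cast h2
    rw [hdv] at h3
    rw [le_abs]
    left
    linarith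

/-- the deterministic step, lower bound -/
lemma detL {T t V ε4 : ℝ} {n r : ℕ} (hT : 1 < T) (hn : n = NZ t + 1)
    (h4 : |dv T (ε4 * V) t| ≤ ε4 / 2 * V) (hu : 1 ≤ ε4 / 2 * V) (hr : 1 ≤ r) :
    t < ord n ∧ ord n ≤ t + ε4 * V * (2 * Real.pi / Real.log T) ∧
    ((1 + 2 * ε4) * V ≤ -1 * dv T (r + (1 + 2 * ε4) * V) t → V + 1 ≤ ff T r n) ∧
    ((1 + 2 * ε4) * V ≤ 1 * dv T (r - (1 + 2 * ε4) * V + 1) t → ff T r n ≤ -(V + 1)) := by
  have hpi := Real.pi_pos
  have hL : 0 < Real.log T := Real.log_pos hT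
  obtain ⟨key, hdv, hffe⟩ := unit_facts (t := t) hT
  obtain ⟨c, hc⟩ : ∃ c : ℝ, c = 2 * Real.pi / Real.log T := ⟨_, rfl⟩
  rw [← hc] at key hdv hffe ⊢
  have hcp : 0 < c := by rw [hc]; positivity
  have hn1 : 1 ≤ n := by omega
  have hnr : (n : ℝ) = NZ t + 1 := by rw [hn]; push_cast; ring
  have ht : t < ord n := by
    by_contra hcon
    push Not at hcon
    have := (SG.ord_le_iff hn1 _).mp hcon
    omega
  have hle : (ord n - t) / c ≤ ε4 * V := by
    refine (key (ε4 * V) n hn1).1 ?_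
    have h1 : (n : ℝ) ≤ NZ (t + ε4 * V * c) := by
      rw [hdv, hnr]
      have := (abs_le.1 h4).1
      linarith
    exact_mod_cast h1
  have hffr := hffe n r
  obtain ⟨y, hy⟩ : ∃ y : ℝ, y = (ord n - t) / c := ⟨_, rfl⟩
  have hy0 : 0 < y := by rw [hy]; exact div_pos (by linarith) hcp
  obtain ⟨x, hx⟩ : ∃ x : ℝ, x = (ord (n + r) - t) / c := ⟨_, rfl⟩
  rw [← hy] at hle
  rw [← hx, ← hy] at hffr
  have hnr1 : 1 ≤ n + r := by omega
  refine ⟨ht, ?_, ?_, ?_⟩
  · rw [hy, div_le_iff₀ hcp] at hle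
    linarith
  · intro h
    have h2 : ¬ (n + r ≤ NZ (t + (r + (1 + 2 * ε4) * V) * c)) := by
      intro hcon
      have h3 : (n : ℝ) + r ≤ NZ (t + (r + (1 + 2 * ε4) * V) * c) := by exact_mod_cast hcon
      rw [hdv] at h3
      linarith
    rw [key _ _ hnr1, ← hx] at h2
    push Not at h2
    linarith
  · intro h
    have h2 : n + r ≤ NZ (t + (r - (1 + 2 * ε4) * V + 1) * c) := by
      have h3 : (n : ℝ) + r ≤ NZ (t + (r - (1 + 2 * ε4) * V + 1) * c) := by
        rw [hdv]
        linarith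
      exact_mod_cast h3
    rw [key _ _ hnr1, ← hx] at h2
    linarith

/-- the two normalisations -/
lemma ffU {T V : ℝ} {n r : ℕ} (hT : 100 ≤ T) (hn : 1 ≤ n) (h1 : T ≤ ord n) (h2 : ord n ≤ 2 * T)
    (hV : 0 ≤ V) (hr : 48 * ((r : ℝ) + V) ≤ Real.log T) (h : V ≤ |SS r n - r|) : V - 1 ≤ |ff T r n| := by
  have hpi := Real.pi_pos
  have hL : 0 < Real.log T := Real.log_pos (by linarith)
  have e1 : (ord (n + r) - ord n) / (2 * Real.pi) * Real.log T = r + ff T r n := by
    unfold ff yv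
    ring
  rcases le_or_gt ((ord (n + r) - ord n) / (2 * Real.pi)) (1 / 48) with h3 | h3
  · have h5 := SS_gL hT (r := r) hn h1 h2 (by linarith)
    have h6 : |SS r n - r| ≤ |SS r n - r - ff T r n| + |ff T r n| := by
      have := abs_add_le (SS r n - r - ff T r n) (ff T r n)
      rwa [sub_add_cancel] at this
    linarith
  · have h6 : 1 / 48 * Real.log T < (ord (n + r) - ord n) / (2 * Real.pi) * Real.log T :=
      mul_lt_mul_of_pos_right h3 hL
    rw [e1] at h6
    have := le_abs_self (ff T r n)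
    linarith

lemma ffL {T V : ℝ} {n r : ℕ} (hT : 100 ≤ T) (hn : 1 ≤ n) (h1 : T ≤ ord n) (h2 : ord n ≤ 2 * T)
    (hV : 0 ≤ V) (hr : 48 * ((r : ℝ) + V + 1) ≤ Real.log T) :
    (V + 1 ≤ ff T r n → V ≤ SS r n - r) ∧ (ff T r n ≤ -(V + 1) → SS r n - r ≤ -V) := by
  have hpi := Real.pi_pos
  have hpi4 := Real.pi_lt_d2
  have hL : 0 < Real.log T := Real.log_pos (by linarith)
  have e1 : (ord (n + r) - ord n) / (2 * Real.pi) * Real.log T = r + ff T r n := by
    unfold ff yv
    ring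
  rcases le_or_gt ((ord (n + r) - ord n) / (2 * Real.pi)) (1 / 48) with h3 | h3
  · have h5 := SS_gL hT (r := r) hn h1 h2 (by linarith)
    obtain ⟨h6, h7⟩ := abs_le.1 h5
    constructor
    · intro h; linarith
    · intro h; linarith
  · have h6 : 1 / 48 * Real.log T < (ord (n + r) - ord n) / (2 * Real.pi) * Real.log T :=
      mul_lt_mul_of_pos_right h3 hL
    rw [e1] at h6
    constructor
    · intro _
      have hlogn : Real.log T - 2 ≤ Real.log (ord n / (2 * Real.pi)) := by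
        rw [Real.log_div (by linarith) (by positivity)]
        have a1 : Real.log T ≤ Real.log (ord n) := Real.log_le_log (by linarith) h1
        have a2 : Real.log (2 * Real.pi) ≤ 2 := by
          rw [Real.log_le_iff_le_exp (by positivity)]
          have e1 : Real.exp 2 = Real.exp 1 * Real.exp 1 := by rw [← Real.exp_add]; norm_num
          rw [e1]
          have := Real.exp_one_gt_d9
          nlinarith
        linarith
      have lo := SS_ge (r := r) hn
      have hr0 : (0 : ℝ) ≤ r := Nat.cast_nonneg _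
      have h7 : (ord (n + r) - ord n) / (2 * Real.pi) * (Real.log T - 2) ≤
          (ord (n + r) - ord n) / (2 * Real.pi) * Real.log (ord n / (2 * Real.pi)) :=
        mul_le_mul_of_nonneg_left hlogn (by linarith)
      have h8 : 1 / 48 * (Real.log T - 2) ≤ (ord (n + r) - ord n) / (2 * Real.pi) * (Real.log T - 2) :=
        mul_le_mul_of_nonneg_right h3.le (by linarith)
      linarith
    · intro h
      have hr0 : (0 : ℝ) ≤ r := Nat.cast_nonneg _
      linarith

end

end Pool.Agent.T6.H5.TL
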