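import Pool.Agent.T6.H5.TL.H

/-! # From heights to zeros: upper bounds for rare events -/

set_option autoImplicit false

namespace Pool.Agent.T6.H5.TL

open Filter Topology MeasureTheory Set
open SG (ord NZ)
open SP (RHs)
open Pool.Agent.T6.H5.MX
open Pool.Agent.Y743.NC (ff dev dev_nonneg dev_int)
open Pool.Agent.R320.CL (SS)
open Pool.Agent.R320.JL (varB)

noncomputable section

/-- the number of zeros whose windows lie in a set -/
lemma cntW {T u s : ℝ} (hT : 1 < T) (hu : 0 ≤ u) (hs : 0 < s) {W W3 : Set ℝ} (hWm : MeasurableSet W)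
    (hW3m : MeasurableSet W3) (S : Finset ℕ)
    (hS : ∀ n ∈ S, 1 ≤ n ∧ T + 2 * Real.pi / Real.log T ≤ ord n ∧ ord n ≤ 2 * T)
    (hin : ∀ n ∈ S, ∀ t, ord n - 2 * Real.pi / Real.log T ≤ t → t < ord n → t ∈ W)
    (hK : ∀ t ∈ Icc T (2 * T), t ∉ W3 → 1 + dv T 1 t ≤ u) :
    2 * Real.pi / Real.log T * S.card ≤ u * volume.real (W ∩ Icc T (2 * T)) +
      (s * ((∫ t in Icc T (2 * T), dev T 1 t) + T) + volume.real (W3 ∩ Icc T (2 * T)) / (2 * s)) := by
  have hpi := Real.pi_pos
  have hL : 0 < Real.log T := Real.log_pos hT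
  have hT0 : 0 < T := by linarith
  obtain ⟨ℓ, hℓ⟩ : ∃ ℓ : ℝ, ℓ = 2 * Real.pi / Real.log T := ⟨_, rfl⟩
  rw [← hℓ] at hS hin ⊢
  have hℓ0 : 0 < ℓ := by rw [hℓ]; positivity
  have hIf : volume (Icc T (2 * T)) ≠ ⊤ := by rw [Real.volume_Icc]; exact ENNReal.ofReal_ne_top
  -- the indicator functions
  have i1 : ∀ n ∈ S, IntegrableOn ((Ico (ord n - ℓ) (ord n)).indicator fun _ : ℝ => (1 : ℝ)) (Icc T (2 * T)) :=
    fun n _ => (integrableOn_const hIf).indicator measurableSet_Ico
  have i1' : ∀ n ∈ S, ∫ t in Icc T (2 * T), (Ico (ord n - ℓ) (ord n)).indicator (fun _ : ℝ => (1 : ℝ)) t = ℓ := by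
    intro n hn
    obtain ⟨b1, b2, b3⟩ := hS n hn
    rw [setIntegral_indicator measurableSet_Ico, setIntegral_const]
    have e1 : Icc T (2 * T) ∩ Ico (ord n - ℓ) (ord n) = Ico (ord n - ℓ) (ord n) := by
      apply inter_eq_right.2
      intro t ht
      exact ⟨by linarith [ht.1], by linarith [ht.2]⟩
    rw [e1, Real.volume_real_Ico_of_le (by linarith), sub_sub_cancel, smul_eq_mul, mul_one]
  have e0 : ℓ * S.card = ∫ t in Icc T (2 * T),
      ∑ n ∈ S, (Ico (ord n - ℓ) (ord n)).indicator (fun _ : ℝ => (1 : ℝ)) t := by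
    rw [integral_finsetSum _ i1, Finset.sum_congr rfl i1', Finset.sum_const, nsmul_eq_mul, mul_comm]
  obtain ⟨g, hg⟩ : ∃ g : ℝ → ℝ, g = fun t => u * W.indicator (fun _ => (1 : ℝ)) t +
    (s * (dev T 1 t + 1) + (1 / (2 * s)) * W3.indicator (fun _ => (1 : ℝ)) t) := ⟨_, rfl⟩
  have hpt : ∀ t ∈ Icc T (2 * T), ∑ n ∈ S, (Ico (ord n - ℓ) (ord n)).indicator (fun _ : ℝ => (1 : ℝ)) t ≤ g t := by
    intro t ht
    obtain ⟨St, hSt⟩ : ∃ St : Finset ℕ, St = S.filter fun n => ord n - ℓ ≤ t ∧ t < ord n := ⟨_, rfl⟩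
    have e1 : ∑ n ∈ S, (Ico (ord n - ℓ) (ord n)).indicator (fun _ : ℝ => (1 : ℝ)) t = (St.card : ℝ) := by
      rw [hSt, Finset.card_filter, Nat.cast_sum]
      refine Finset.sum_congr rfl fun n _ => ?_
      rw [indicator_apply]
      by_cases h : ord n - ℓ ≤ t ∧ t < ord n
      · rw [if_pos h, if_pos (mem_Ico.2 h), Nat.cast_one]
      · rw [if_neg h, if_neg (fun h' => h (mem_Ico.1 h')), Nat.cast_zero]
    rw [e1, hg]
    simp only
    have hdev := dev_nonneg T 1 t
    have hWi0 : 0 ≤ W.indicator (fun _ => (1 : ℝ)) t := indicator_nonneg (fun _ _ => zero_le_one) _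
    have hW3i0 : 0 ≤ W3.indicator (fun _ => (1 : ℝ)) t := indicator_nonneg (fun _ _ => zero_le_one) _
    rcases St.eq_empty_or_nonempty with hem | ⟨n0, hn0⟩
    · rw [hem, Finset.card_empty, Nat.cast_zero]
      positivity
    · have htW : t ∈ W := by
        rw [hSt, Finset.mem_filter] at hn0
        exact hin n0 hn0.1 t hn0.2.1 hn0.2.2
      rw [indicator_of_mem htW, mul_one]
      have hsub : St ⊆ Finset.Ioc (NZ t) (NZ (t + ℓ)) := by
        intro n hn
        rw [hSt, Finset.mem_filter] at hn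
        obtain ⟨c1, c2, c3⟩ := hn
        obtain ⟨b1, b2, b3⟩ := hS n c1
        rw [Finset.mem_Ioc]
        refine ⟨?_, (SG.ord_le_iff b1 _).mp (by linarith)⟩
        by_contra hcon
        push Not at hcon
        have := (SG.ord_le_iff b1 _).mpr hcon
        linarith
      have hmono : NZ t ≤ NZ (t + ℓ) := SG.NZ_mono (by linarith)
      have hcard : (St.card : ℝ) ≤ 1 + dv T 1 t := by
        have h1 := Finset.card_le_card hsub
        rw [Nat.card_Ioc] at h1
        have h2 : (St.card : ℝ) ≤ ((NZ (t + ℓ) - NZ t : ℕ) : ℝ) := by exact_mod_cast h1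
        rw [Nat.cast_sub hmono] at h2
        unfold dv
        rw [mul_one, ← hℓ]
        linarith
      by_cases h3 : t ∈ W3
      · rw [indicator_of_mem h3, mul_one]
        have e2 : dev T 1 t = dv T 1 t ^ 2 := rfl
        have h4 : 1 + dv T 1 t ≤ s * (dev T 1 t + 1) + 1 / (2 * s) := by
          rw [e2]
          obtain ⟨d, hd⟩ : ∃ d : ℝ, d = dv T 1 t := ⟨_, rfl⟩
          rw [← hd]
          have h5 : 0 ≤ (s * (1 + d) - 1) ^ 2 / (2 * s) := by positivity
          have h6 : (s * (1 + d) - 1) ^ 2 / (2 * s) = s * (1 + d) ^ 2 / 2 - (1 + d) + 1 / (2 * s) := by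
            field_simp
            ring
          have h7 : s * (1 + d) ^ 2 / 2 ≤ s * (d ^ 2 + 1) := by
            have : 0 ≤ s * (1 - d) ^ 2 := by positivity
            nlinarith
          linarith
        linarith
      · have h4 := hK t ht h3
        have h5 : 0 ≤ s * (dev T 1 t + 1) + 1 / (2 * s) * W3.indicator (fun _ => (1 : ℝ)) t := by positivity
        linarith
  -- integrate
  have k1 : IntegrableOn (dev T 1) (Icc T (2 * T)) := dev_int _ _ _ _
  have k2 : ∀ V : Set ℝ, MeasurableSet V → IntegrableOn (V.indicator fun _ : ℝ => (1 : ℝ)) (Icc T (2 * T)) :=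
    fun V hV => (integrableOn_const hIf).indicator hV
  have k3 : IntegrableOn (fun _ : ℝ => (1 : ℝ)) (Icc T (2 * T)) := integrableOn_const hIf
  have q1 : IntegrableOn (fun t => u * W.indicator (fun _ => (1 : ℝ)) t) (Icc T (2 * T)) := (k2 W hWm).const_mul _
  have q2 : IntegrableOn (fun t => s * (dev T 1 t + 1)) (Icc T (2 * T)) := (k1.add k3).const_mul _
  have q3 : IntegrableOn (fun t => (1 / (2 * s)) * W3.indicator (fun _ => (1 : ℝ)) t) (Icc T (2 * T)) :=
    (k2 W3 hW3m).const_mul _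
  have hgi : IntegrableOn g (Icc T (2 * T)) := by
    rw [hg]
    exact q1.add (q2.add q3)
  have hsumi : IntegrableOn (fun t => ∑ n ∈ S, (Ico (ord n - ℓ) (ord n)).indicator (fun _ : ℝ => (1 : ℝ)) t)
      (Icc T (2 * T)) := integrable_finsetSum _ i1
  have hle := setIntegral_mono_on (μ := volume) hsumi hgi measurableSet_Icc (fun t ht => hpt t ht)
  rw [e0]
  refine hle.trans (le_of_eq ?_)
  have a1 := integral_add (μ := volume.restrict (Icc T (2 * T))) q1 (q2.add q3)
  have a2 := integral_add (μ := volume.restrict (Icc T (2 * T))) q2 q3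
  have a3 := integral_add (μ := volume.restrict (Icc T (2 * T))) k1 k3
  simp only [Pi.add_apply] at a1 a2 a3
  have hind : ∀ V : Set ℝ, MeasurableSet V →
      ∫ t in Icc T (2 * T), V.indicator (fun _ => (1 : ℝ)) t = volume.real (V ∩ Icc T (2 * T)) := by
    intro V hV
    rw [setIntegral_indicator hV, setIntegral_const, smul_eq_mul, mul_one, inter_comm]
  rw [hg]
  simp only
  rw [a1, a2]
  simp only [integral_const_mul]
  rw [a3, hind W hWm, hind W3 hW3m, setIntegral_const, Real.volume_real_Icc_of_le (by linarith), smul_eq_mul,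
    mul_one]
  have e5 : (2 * T - T) = T := by ring
  rw [e5]
  ring

end

end Pool.Agent.T6.H5.TL
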