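import Pool.Agent.T6.H5.TL.I

/-! # The upper bound for the tails of gap sums, a block of zeros -/

set_option autoImplicit false

namespace Pool.Agent.T6.H5.TL

open Filter Topology MeasureTheory Set
open SG (ord NZ)
open SP (RHs)
open Pool.Agent.T6.H5.MX
open Pool.Agent.Y743.NC (ff dev dev_nonneg dev_int)
open Pool.Agent.R320.CL (SS)
open Pool.Agent.R320.JL (varB YY YY_meas)

noncomputable section

lemma dv_meas (T a : ℝ) : Measurable (dv T a) := YY_meas T a

/-- the numerical part -/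
lemma numJ {ε A V G Kc C ε4 u : ℝ} (hε : 0 < ε) (hε1 : ε ≤ 1 / 2) (hA : 1 ≤ A) (hV1 : 1 ≤ V)
    (hG0 : 0 ≤ G) (hG : G ≤ 5 * A * V) (hKc : Kc = 10 * A + 10) (hC : 0 ≤ C) (hCV : 4 * (C + 4) ≤ V)
    (hε4 : ε4 = ε / 32) (hu : u = 3 / 2 * (ε4 * V)) (h8 : 8 * V ≤ Real.exp (ε / 2 * G)) :
    u * (2 * Real.exp (-((1 - ε / 4) * ((1 - 2 * ε4) ^ 2 * G))) + Real.exp (-(Kc * V))) +
      (Real.exp (-(Kc * V / 2)) * (C + 2) + Real.exp (-(Kc * V)) / (2 * Real.exp (-(Kc * V / 2)))) ≤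
      Real.exp (-((1 - ε) * G)) := by
  obtain ⟨X, hX⟩ : ∃ X : ℝ, X = Real.exp (-((1 - ε) * G)) := ⟨_, rfl⟩
  rw [← hX]
  have hX0 : 0 < X := by rw [hX]; exact Real.exp_pos _
  have e1 : Real.exp (-((1 - ε / 4) * ((1 - 2 * ε4) ^ 2 * G))) ≤ X * Real.exp (-(ε / 2 * G)) := by
    rw [hX, ← Real.exp_add]
    apply Real.exp_le_exp.2
    have h1 : 1 - ε / 2 ≤ (1 - ε / 4) * (1 - 2 * ε4) ^ 2 := by
      rw [hε4]
      nlinarith [sq_nonneg ε]
    have h2 := mul_le_mul_of_nonneg_right h1 hG0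
    linarith
  have e2 : V * Real.exp (-(ε / 2 * G)) ≤ 1 / 8 := by
    rw [Real.exp_neg, ← div_eq_mul_inv, div_le_iff₀ (Real.exp_pos _)]
    linarith
  have hu0 : 0 ≤ u := by rw [hu, hε4]; positivity
  have huV : u ≤ V := by rw [hu, hε4]; nlinarith
  have e3 : u * (2 * Real.exp (-((1 - ε / 4) * ((1 - 2 * ε4) ^ 2 * G)))) ≤ X / 4 := by
    calc u * (2 * Real.exp (-((1 - ε / 4) * ((1 - 2 * ε4) ^ 2 * G)))) ≤
        V * (2 * (X * Real.exp (-(ε / 2 * G)))) := by
          apply mul_le_mul huV (mul_le_mul_of_nonneg_left e1 (by norm_num)) (by positivity) (by linarith)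
      _ = 2 * X * (V * Real.exp (-(ε / 2 * G))) := by ring
      _ ≤ 2 * X * (1 / 8) := mul_le_mul_of_nonneg_left e2 (by positivity)
      _ = X / 4 := by ring
  -- the small terms
  have hGX : Real.exp (-(5 * A * V)) ≤ X := by
    rw [hX]
    apply Real.exp_le_exp.2
    have : 0 ≤ ε * G := by positivity
    linarith
  obtain ⟨s, hs⟩ : ∃ s : ℝ, s = Real.exp (-(Kc * V / 2)) := ⟨_, rfl⟩
  have hs0 : 0 < s := by rw [hs]; exact Real.exp_pos _
  have hss : Real.exp (-(Kc * V)) = s * s := by rw [hs, ← Real.exp_add]; congr 1; ring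
  rw [← hs, hss]
  have e4 : s * s / (2 * s) = s / 2 := by field_simp
  rw [e4]
  have hV0 : 0 < V := by linarith
  have hsX : s ≤ X * Real.exp (-(5 * V)) := by
    calc s = Real.exp (-(5 * A * V)) * Real.exp (-(5 * V)) := by
          rw [hs, hKc, ← Real.exp_add]; congr 1; ring
      _ ≤ X * Real.exp (-(5 * V)) := mul_le_mul_of_nonneg_right hGX (Real.exp_pos _).le
  have hV5 : V * Real.exp (-(5 * V)) ≤ 1 / 5 := by
    rw [Real.exp_neg, ← div_eq_mul_inv, div_le_iff₀ (Real.exp_pos _)]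
    have := Real.add_one_le_exp (5 * V)
    linarith
  have hsV : s * V ≤ X / 5 := by
    calc s * V ≤ X * Real.exp (-(5 * V)) * V := mul_le_mul_of_nonneg_right hsX hV0.le
      _ = X * (V * Real.exp (-(5 * V))) := by ring
      _ ≤ X * (1 / 5) := mul_le_mul_of_nonneg_left hV5 hX0.le
      _ = X / 5 := by ring
  have hs1 : s ≤ 1 := by
    rw [hs, Real.exp_le_one_iff]
    have : 0 < Kc * V := by rw [hKc]; positivity
    linarith
  have e5 : s * (C + 2) + s / 2 ≤ X / 5 := by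
    have h1 : s * (C + 2) + s / 2 ≤ s * V := by
      have : s * (4 * (C + 4)) ≤ s * V := mul_le_mul_of_nonneg_left hCV hs0.le
      have h2 : 0 ≤ s * C := by positivity
      linarith
    linarith
  have e6 : u * (s * s) ≤ X / 5 := by
    calc u * (s * s) ≤ V * (s * 1) := by
          apply mul_le_mul huV (mul_le_mul_of_nonneg_left hs1 hs0.le) (by positivity) hV0.le
      _ = s * V := by ring
      _ ≤ _ := hsV
  have e7 : u * (2 * Real.exp (-((1 - ε / 4) * ((1 - 2 * ε4) ^ 2 * G))) + s * s) =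
    u * (2 * Real.exp (-((1 - ε / 4) * ((1 - 2 * ε4) ^ 2 * G)))) + u * (s * s) := by ring
  rw [e7]
  linarith

theorem cancelJ {L p c : ℝ} (hL : L ≠ 0) (hp : p ≠ 0) : L / p * (p / L * c) = c := by
  field_simp

/-- **the upper bound, a block of zeros** -/
theorem blkU (hRH : RHs) {ε A : ℝ} (hε : 0 < ε) (hε1 : ε ≤ 1 / 2) (hA : 1 ≤ A) : ∃ r0 : ℕ, 3 ≤ r0 ∧
    ∀ r : ℕ, r0 ≤ r → ∀ V : ℝ, 0 < V → Real.log r * Real.log (Real.log r) ≤ ε / 20 * V ^ 2 →
    V ≤ A * Real.log r → ∃ x0 : ℝ, 100 ≤ x0 ∧ ∀ x : ℝ, x0 ≤ x → ∀ S : Finset ℕ,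
    (∀ n ∈ S, NZ (2 / 3 * x) < n ∧ n ≤ NZ x ∧ V ≤ |SS r n - r|) →
    (S.card : ℝ) ≤ Real.exp (-((1 - ε) * (Real.pi ^ 2 * V ^ 2 / (2 * Real.log r)))) * (x * Real.log x) := by
  have hpi := Real.pi_pos
  have hpi3 := Real.pi_gt_three
  obtain ⟨ε4, hε4⟩ : ∃ z : ℝ, z = ε / 32 := ⟨_, rfl⟩
  have hε40 : 0 < ε4 := by rw [hε4]; positivity
  have hε41 : ε4 ≤ 1 / 64 := by rw [hε4]; linarith
  obtain ⟨Kc, hKc⟩ : ∃ Kc : ℝ, Kc = 10 * A + 10 := ⟨_, rfl⟩
  have hKc0 : 0 ≤ Kc := by rw [hKc]; linarith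
  obtain ⟨r1, hr1, hLT⟩ := LT hRH (ε := ε / 4) (A := A) (by positivity) (by linarith) hA
  obtain ⟨V0, hV0, hSM⟩ := SMW hRH (K := Kc) hε40 hKc0
  obtain ⟨C, Tc, hC, hTc, hvar⟩ := varB 1 le_rfl
  have hl2 : Real.log (1 + 1) ≤ 1 := by
    have := Real.log_le_sub_one_of_pos (show (0 : ℝ) < 1 + 1 by norm_num)
    linarith
  obtain ⟨V1, hV1⟩ : ∃ V1 : ℝ, V1 = max V0 (max (4 * (C + 4)) (2 / ε4)) := ⟨_, rfl⟩
  obtain ⟨R0, hR0⟩ := ((evR (ε := ε / 20) (V1 := V1) (C1 := 0) (by positivity) (by linarith) hA).and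
    (eventually_ge_atTop (8 * A))).exists_forall_of_atTop
  have hlog := (Real.tendsto_log_atTop.comp (tendsto_natCast_atTop_atTop (R := ℝ)))
  have hAr : ∀ᶠ r : ℕ in atTop, 8 * A * Real.log (r : ℝ) ≤ r := by
    have h2 : (fun y : ℝ => Real.log y) =o[atTop] fun y : ℝ => y := Real.isLittleO_log_id_atTop
    have h3 := (h2.bound (c := 1 / (8 * A)) (by positivity))
    have h4 := tendsto_natCast_atTop_atTop (R := ℝ) |>.eventually h3
    filter_upwards [h4, eventually_ge_atTop 1] with r hr hr1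
    have hr1' : (1 : ℝ) ≤ r := by exact_mod_cast hr1
    rw [Real.norm_of_nonneg (Real.log_nonneg hr1'), Real.norm_of_nonneg (by linarith), div_mul_eq_mul_div,
      one_mul, le_div_iff₀ (by positivity)] at hr
    linarith
  obtain ⟨r2, hr2⟩ := ((hlog.eventually_ge_atTop R0).and hAr).exists_forall_of_atTop
  refine ⟨max r1 r2, hr1.trans (le_max_left _ _), fun r hr V hV hRV hVA => ?_⟩
  obtain ⟨hrr, hAr'⟩ := hr2 r ((le_max_right _ _).trans hr)
  simp only [Function.comp_apply] at hrr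
  obtain ⟨hR0', hRA⟩ := hR0 _ hrr
  obtain ⟨R, hR⟩ : ∃ R : ℝ, R = Real.log r := ⟨_, rfl⟩
  obtain ⟨G, hG⟩ : ∃ G : ℝ, G = Real.pi ^ 2 * V ^ 2 / (2 * R) := ⟨_, rfl⟩
  obtain ⟨g1, g2, g3, -, g5, -, g7, -, -, -⟩ := hR0' V hV hRV hVA G (by rw [hG, hR])
  have hLTr := hLT r ((le_max_left _ _).trans hr)
  clear hR0 hR0' hr2 hLT
  rw [← hR] at hRV hVA g1 g5 hRA hAr' ⊢
  rw [← hG]
  have hVV0 : V0 ≤ V := (le_max_left _ _).trans (hV1 ▸ g2)
  have hVC : 4 * (C + 4) ≤ V := ((le_max_left _ _).trans (le_max_right _ _)).trans (hV1 ▸ g2)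
  have hVε : 2 / ε4 ≤ V := ((le_max_right _ _).trans (le_max_right _ _)).trans (hV1 ▸ g2)
  have hVge1 : 1 ≤ V := hV0.trans hVV0
  have hR1 : 1 ≤ R := by
    refine le_trans ?_ g1
    rw [le_div_iff₀ (by positivity)]
    linarith only [hε1]
  have hεV : 1 ≤ ε4 / 2 * V := by
    rw [div_le_iff₀ hε40] at hVε
    linarith only [hVε]
  have hrpos : (0 : ℝ) < r := by linarith only [hAr', mul_pos (by linarith only [hA] : (0 : ℝ) < 8 * A) (by linarith only [hR1] : 0 < R)]
  have hVr : 8 * V ≤ r := by linarith only [hVA, hAr']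
  -- the threshold
  obtain ⟨V2, hV2⟩ : ∃ V2 : ℝ, V2 = (1 - 2 * ε4) * V := ⟨_, rfl⟩
  have hq : 0 < 1 - 2 * ε4 := by linarith only [hε41]
  have hV20 : 0 < V2 := by rw [hV2]; positivity
  have hV2V : V2 ≤ V := by rw [hV2]; nlinarith only [hε40, hV]
  have hRV2 : R * Real.log R ≤ ε / 4 * V2 ^ 2 := by
    refine hRV.trans ?_
    have h1 : V ^ 2 / 5 ≤ V2 ^ 2 := by
      rw [hV2, mul_pow]
      have h2 : 1 / 5 ≤ (1 - 2 * ε4) ^ 2 := by nlinarith only [hε41, hε40]
      have := mul_le_mul_of_nonneg_right h2 (sq_nonneg V)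
      linarith only [this]
    have := mul_le_mul_of_nonneg_left h1 (by positivity : 0 ≤ ε / 4)
    linarith only [this]
  have hV2A : V2 ≤ A * R := hV2V.trans hVA
  rw [hR] at hRV2 hV2A
  obtain ⟨T1, hT1, hU1⟩ := hLTr V2 hV20 hRV2 hV2A (r + V - 1) (by linarith only [hVge1, hrpos])
    (by linarith only [hVr, hV, hrpos])
  obtain ⟨T2, hT2, hU2⟩ := hLTr V2 hV20 hRV2 hV2A (r - V + 2) (by linarith only [hVr, hV, hrpos])
    (by linarith only [hVr, hV, hrpos, hVge1])
  rw [← hR] at hU1 hU2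
  obtain ⟨T3, hT3, hU3⟩ := hSM V hVV0
  obtain ⟨T4, hT4⟩ := (Real.tendsto_log_atTop.eventually_ge_atTop (48 * ((r : ℝ) + V) + 8)).exists_forall_of_atTop
  refine ⟨2 * max (max (max T1 T2) (max T3 T4)) (max Tc 500), ?_, fun x hx S hS => ?_⟩
  · have : (500 : ℝ) ≤ max (max (max T1 T2) (max T3 T4)) (max Tc 500) :=
      (le_max_right _ _).trans (le_max_right _ _)
    linarith
  obtain ⟨T, hT⟩ : ∃ T : ℝ, T = 3 / 5 * x := ⟨_, rfl⟩
  have hMx : max (max (max T1 T2) (max T3 T4)) (max Tc 500) ≤ T := by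
    have : (500 : ℝ) ≤ max (max (max T1 T2) (max T3 T4)) (max Tc 500) :=
      (le_max_right _ _).trans (le_max_right _ _)
    linarith
  have t1 : T1 ≤ T := ((le_max_left _ _).trans ((le_max_left _ _).trans (le_max_left _ _))).trans hMx
  have t2 : T2 ≤ T := ((le_max_right _ _).trans ((le_max_left _ _).trans (le_max_left _ _))).trans hMx
  have t3 : T3 ≤ T := ((le_max_left _ _).trans ((le_max_right _ _).trans (le_max_left _ _))).trans hMx
  have t4 : T4 ≤ T := ((le_max_right _ _).trans ((le_max_right _ _).trans (le_max_left _ _))).trans hMx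
  have t5 : Tc ≤ T := ((le_max_left _ _).trans (le_max_right _ _)).trans hMx
  have t6 : 500 ≤ T := ((le_max_right _ _).trans (le_max_right _ _)).trans hMx
  have hx' : x = 5 / 3 * T := by rw [hT]; ring
  have hT0 : 0 < T := by linarith only [t6]
  obtain ⟨L, hL⟩ : ∃ L : ℝ, L = Real.log T := ⟨_, rfl⟩
  have hLr : 48 * ((r : ℝ) + V) + 8 ≤ L := by rw [hL]; exact hT4 T t4
  have hL8 : 8 ≤ L := by linarith only [hLr, hrpos, hV]
  have hL0 : 0 < L := by linarith only [hL8]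
  have hl1 : 2 * Real.pi / L ≤ 1 := by
    rw [div_le_one hL0]
    linarith only [hL8, Real.pi_lt_d2]
  have hUU1 := (hU1 T t1).1
  have hUU2 := (hU2 T t2).1
  have hUU3 := hU3 T t3
  have hdev := hvar T t5 1 one_pos (by rw [Real.log_one, mul_zero, one_mul, ← hL]; exact hL0.le)
  clear hU1 hU2 hU3 hvar hT4
  obtain ⟨W1, hW1⟩ : ∃ W : Set ℝ, W = {t | t ∈ Icc T (2 * T) ∧ V2 ≤ |dv T (r + V - 1) t|} := ⟨_, rfl⟩
  obtain ⟨W2, hW2⟩ : ∃ W : Set ℝ, W = {t | t ∈ Icc T (2 * T) ∧ V2 ≤ |dv T (r - V + 2) t|} := ⟨_, rfl⟩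
  obtain ⟨W3, hW3⟩ : ∃ W : Set ℝ, W = {t | t ∈ Icc T (2 * T) ∧ ε4 / 2 * V < |dv T (ε4 * V) t|} := ⟨_, rfl⟩
  rw [← hW1] at hUU1
  rw [← hW2] at hUU2
  rw [← hW3] at hUU3
  have m1 : MeasurableSet W1 := by
    rw [hW1]; exact measurableSet_Icc.inter (measurableSet_le measurable_const (dv_meas T _).abs)
  have m2 : MeasurableSet W2 := by
    rw [hW2]; exact measurableSet_Icc.inter (measurableSet_le measurable_const (dv_meas T _).abs)
  have m3 : MeasurableSet W3 := by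
    rw [hW3]; exact measurableSet_Icc.inter (measurableSet_lt measurable_const (dv_meas T _).abs)
  have hsubI : W1 ∪ (W2 ∪ W3) ⊆ Icc T (2 * T) := by
    refine union_subset ?_ (union_subset ?_ ?_)
    · rw [hW1]; exact fun t ht => ht.1
    · rw [hW2]; exact fun t ht => ht.1
    · rw [hW3]; exact fun t ht => ht.1
  obtain ⟨u, hu⟩ : ∃ u : ℝ, u = 3 / 2 * (ε4 * V) := ⟨_, rfl⟩
  have hu0 : 0 ≤ u := by rw [hu]; positivity
  obtain ⟨s, hs⟩ : ∃ s : ℝ, s = Real.exp (-(Kc * V / 2)) := ⟨_, rfl⟩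
  have hs0 : 0 < s := by rw [hs]; exact Real.exp_pos _
  have hSm : ∀ n ∈ S, 1 ≤ n ∧ 2 / 3 * x < ord n ∧ ord n ≤ x := by
    intro n hn
    obtain ⟨a1, a2, a3⟩ := hS n hn
    have hn1 : 1 ≤ n := by omega
    refine ⟨hn1, ?_, (SG.ord_le_iff hn1 _).mpr a2⟩
    by_contra hcon
    push Not at hcon
    have := (SG.ord_le_iff hn1 _).mp hcon
    omega
  have hcnt := cntW (T := T) (u := u) (s := s) (by linarith only [t6]) hu0 hs0 (W := W1 ∪ (W2 ∪ W3)) (W3 := W3)
    (m1.union (m2.union m3)) m3 S (by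
      intro n hn
      obtain ⟨b1, b2, b3⟩ := hSm n hn
      refine ⟨b1, ?_, by linarith only [b3, hx', hT0]⟩
      rw [← hL]
      linarith only [b2, hl1, hx', t6]) (by
      intro n hn t ht1 ht2
      obtain ⟨b1, b2, b3⟩ := hSm n hn
      obtain ⟨-, -, hVn⟩ := hS n hn
      rw [← hL] at ht1
      have htI : t ∈ Icc T (2 * T) :=
        ⟨by linarith only [b2, hl1, hx', t6, ht1], by linarith only [b3, hx', hT0, ht2]⟩
      by_cases h3 : t ∈ W3
      · exact Or.inr (Or.inr h3)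
      · rw [hW3] at h3
        have h4 : |dv T (ε4 * V) t| ≤ ε4 / 2 * V := by
          by_contra hcon
          push Not at hcon
          exact h3 ⟨htI, hcon⟩
        have hff := ffU (T := T) (V := V) (n := n) (r := r) (by linarith only [t6]) b1
          (by linarith only [b2, hx', hT0]) (by linarith only [b3, hx', hT0]) hV.le
          (by rw [← hL]; linarith only [hLr]) hVn
        rcases detU (T := T) (t := t) (V := V) (ε4 := ε4) (by linarith only [t6]) b1 (by rw [← hL]; exact ht1)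
          ht2 h4 hεV hff with h5 | h5
        · left
          rw [hW1]
          exact ⟨htI, by rw [hV2]; exact h5⟩
        · right; left
          rw [hW2]
          exact ⟨htI, by rw [hV2]; exact h5⟩) (by
      intro t htI h3
      rw [hW3] at h3
      have h4 : |dv T (ε4 * V) t| ≤ ε4 / 2 * V := by
        by_contra hcon
        push Not at hcon
        exact h3 ⟨htI, hcon⟩
      have h5 : NZ (t + 2 * Real.pi * 1 / Real.log T) ≤ NZ (t + 2 * Real.pi * (ε4 * V) / Real.log T) := by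
        apply SG.NZ_mono
        have : 2 * Real.pi * 1 / Real.log T ≤ 2 * Real.pi * (ε4 * V) / Real.log T := by
          rw [← hL]
          apply div_le_div_of_nonneg_right _ hL0.le
          apply mul_le_mul_of_nonneg_left _ (by positivity)
          linarith only [hεV]
        linarith only [this]
      have h6 : (NZ (t + 2 * Real.pi * 1 / Real.log T) : ℝ) ≤ NZ (t + 2 * Real.pi * (ε4 * V) / Real.log T) := by
        exact_mod_cast h5
      have h7 := (abs_le.1 h4).2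
      unfold dv at h7 ⊢
      rw [hu]
      linarith only [h6, h7])
  rw [inter_eq_left.2 hsubI, inter_eq_left.2 (fun t ht => hsubI (Or.inr (Or.inr ht)) : W3 ⊆ Icc T (2 * T)),
    ← hL] at hcnt
  have hWvol : volume.real (W1 ∪ (W2 ∪ W3)) ≤ T * (2 * Real.exp (-((1 - ε / 4) * ((1 - 2 * ε4) ^ 2 * G))) +
      Real.exp (-(Kc * V))) := by
    have h1 := measureReal_union_le (μ := volume) W1 (W2 ∪ W3)
    have h2 := measureReal_union_le (μ := volume) W2 W3
    have e1 : (1 - 2 * ε4) ^ 2 * G = Real.pi ^ 2 * V2 ^ 2 / (2 * R) := by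
      rw [hG, hV2]; ring
    rw [e1]
    linarith only [h1, h2, hUU1, hUU2, hUU3]
  have hnum := numJ (A := A) (V := V) (G := G) (C := C) hε hε1 hA hVge1 (by linarith only [g3]) (by linarith only [g7]) hKc
    (by linarith only [hC]) hVC hε4 hu (by
      have h1 : 8 * V ≤ 8 * A * R := by linarith only [hVA]
      have h2 : (1 : ℝ) ≤ Real.exp (ε / 20 / 2 * G) := by
        refine le_trans ?_ g5
        linarith only [hR1]
      have h3 : 8 * A * R ≤ Real.exp (ε / 20 / 2 * G) * Real.exp (ε / 20 / 2 * G) := by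
        have h4 : 8 * A ≤ Real.exp (ε / 20 / 2 * G) := by linarith only [g5, hRA, hR1]
        have h5 : R ≤ Real.exp (ε / 20 / 2 * G) := by linarith only [g5, hR1]
        exact mul_le_mul h4 h5 (by linarith only [hR1]) (Real.exp_pos _).le
      refine (h1.trans h3).trans ?_
      rw [← Real.exp_add]
      apply Real.exp_le_exp.2
      have : 0 ≤ ε * G := mul_nonneg hε.le (by linarith only [g3])
      linarith only [this])
  have hfin : 2 * Real.pi / L * S.card ≤ T * Real.exp (-((1 - ε) * G)) := by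
    refine hcnt.trans ?_
    have a1 : u * volume.real (W1 ∪ (W2 ∪ W3)) ≤
        u * (T * (2 * Real.exp (-((1 - ε / 4) * ((1 - 2 * ε4) ^ 2 * G))) + Real.exp (-(Kc * V)))) :=
      mul_le_mul_of_nonneg_left hWvol hu0
    have a2 : s * ((∫ t in Icc T (2 * T), dev T 1 t) + T) ≤ T * (s * (C + 2)) := by
      have : (∫ t in Icc T (2 * T), dev T 1 t) + T ≤ T * (C + 2) := by
        have := mul_le_mul_of_nonneg_left hl2 hT0.le
        linarith only [hdev, this]
      have := mul_le_mul_of_nonneg_left this hs0.le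
      linarith only [this]
    have a3 : volume.real W3 / (2 * s) ≤ T * (Real.exp (-(Kc * V)) / (2 * s)) := by
      rw [← mul_div_assoc]
      exact div_le_div_of_nonneg_right hUU3 (by positivity)
    have a4 := mul_le_mul_of_nonneg_left hnum hT0.le
    rw [← hs] at a4
    linarith only [a1, a2, a3, a4]
  have hcard : (S.card : ℝ) ≤ L / (2 * Real.pi) * (T * Real.exp (-((1 - ε) * G))) := by
    have e1 : L / (2 * Real.pi) * (2 * Real.pi / L * S.card) = S.card :=
      cancelJ hL0.ne' (by positivity)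
    rw [← e1]
    exact mul_le_mul_of_nonneg_left hfin (by positivity)
  refine hcard.trans ?_
  have hLx : L ≤ Real.log x := by rw [hL]; exact Real.log_le_log hT0 (by linarith only [hx', hT0])
  have h1 : L / (2 * Real.pi) ≤ Real.log x := by
    refine le_trans ?_ hLx
    apply div_le_self hL0.le
    linarith only [hpi3]
  have hX0 := Real.exp_pos (-((1 - ε) * G))
  calc L / (2 * Real.pi) * (T * Real.exp (-((1 - ε) * G))) ≤ Real.log x * (x * Real.exp (-((1 - ε) * G))) := by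
        apply mul_le_mul h1 (mul_le_mul_of_nonneg_right (by linarith only [hx', hT0]) hX0.le)
          (by positivity) (by linarith only [hL0, hLx])
    _ = _ := by ring

end

end Pool.Agent.T6.H5.TL
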