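import Pool.Agent.T6.H5.TL.J

/-! # The lower bound for the tails of gap sums -/

set_option autoImplicit false

namespace Pool.Agent.T6.H5.TL

open Filter Topology MeasureTheory Set
open SG (ord NZ)
open SP (RHs)
open Pool.Agent.T6.H5.MX
open Pool.Agent.R320.CL (SS)

noncomputable section

/-- the numerical part -/
lemma numK {ε A V G Kc ε4 T e N X : ℝ} (hε : 0 < ε) (hε1 : ε ≤ 1 / 2) (hA : 1 ≤ A) (hV1 : 1 ≤ V)
    (hG0 : 0 ≤ G) (hG : G ≤ 5 * A * V) (hKc : Kc = 10 * A + 10) (hε4 : ε4 = ε / 32)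
    (h8 : 8 * V ≤ Real.exp (ε / 2 * G)) (hX : X = Real.exp (-((1 + ε) * G))) (hT : 0 < T) (he : e ≤ T * X)
    (hmain : T * Real.exp (-((1 + ε / 4) * ((1 + 2 * ε4) ^ 2 * G))) ≤ N * e + T * Real.exp (-(Kc * V)) + e) :
    T * (X * (6 * V)) ≤ N * e := by
  have hX0 : 0 < X := by rw [hX]; exact Real.exp_pos _
  have e1 : X * (8 * V) ≤ Real.exp (-((1 + ε / 4) * ((1 + 2 * ε4) ^ 2 * G))) := by
    refine (mul_le_mul_of_nonneg_left h8 hX0.le).trans ?_
    rw [hX, ← Real.exp_add]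
    apply Real.exp_le_exp.2
    have h1 : (1 + ε / 4) * (1 + 2 * ε4) ^ 2 ≤ 1 + ε / 2 := by
      rw [hε4]
      have : ε ^ 2 ≤ ε / 2 := by nlinarith
      have : ε ^ 3 ≤ ε / 4 := by nlinarith
      nlinarith
    have h2 := mul_le_mul_of_nonneg_right h1 hG0
    linarith
  have e2 : Real.exp (-(Kc * V)) ≤ X := by
    rw [hX]
    apply Real.exp_le_exp.2
    have h1 : (1 + ε) * G ≤ 3 / 2 * G := by nlinarith
    have h2 : 0 ≤ A * V := by positivity
    rw [hKc]
    nlinarith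
  have e3 : X ≤ X * V := le_mul_of_one_le_right hX0.le hV1
  have e4 := mul_le_mul_of_nonneg_left e1 hT.le
  have e5 := mul_le_mul_of_nonneg_left (e2.trans e3) hT.le
  have e6 := mul_le_mul_of_nonneg_left e3 hT.le
  linarith

/-- **the lower bound** -/
theorem lowN (hRH : RHs) {ε A : ℝ} (hε : 0 < ε) (hε1 : ε ≤ 1 / 2) (hA : 1 ≤ A) : ∃ r0 : ℕ, 3 ≤ r0 ∧
    ∀ r : ℕ, r0 ≤ r → ∀ V : ℝ, 0 < V → Real.log r * Real.log (Real.log r) ≤ ε / 20 * V ^ 2 →
    V ≤ A * Real.log r → ∃ x0 : ℝ, 100 ≤ x0 ∧ ∀ x : ℝ, x0 ≤ x → ∀ S : Finset ℕ,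
    ((∀ n : ℕ, 1 ≤ n → ord n < x → V ≤ SS r n - r → n ∈ S) ∨
      (∀ n : ℕ, 1 ≤ n → ord n < x → SS r n - r ≤ -V → n ∈ S)) →
    Real.exp (-((1 + ε) * (Real.pi ^ 2 * V ^ 2 / (2 * Real.log r)))) * (x * Real.log x) ≤ (S.card : ℝ) := by
  have hpi := Real.pi_pos
  have hpi3 := Real.pi_gt_three
  have hpi4 := Real.pi_lt_d2
  obtain ⟨ε4, hε4⟩ : ∃ z : ℝ, z = ε / 32 := ⟨_, rfl⟩
  have hε40 : 0 < ε4 := by rw [hε4]; positivity
  have hε41 : ε4 ≤ 1 / 64 := by rw [hε4]; linarith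
  obtain ⟨Kc, hKc⟩ : ∃ Kc : ℝ, Kc = 10 * A + 10 := ⟨_, rfl⟩
  have hKc0 : 0 ≤ Kc := by rw [hKc]; linarith
  obtain ⟨r1, hr1, hLT⟩ := LT hRH (ε := ε / 4) (A := 2 * A) (by positivity) (by linarith) (by linarith)
  obtain ⟨V0, hV0, hSM⟩ := SMW hRH (K := Kc) hε40 hKc0
  obtain ⟨V1, hV1⟩ : ∃ V1 : ℝ, V1 = max V0 (2 / ε4) := ⟨_, rfl⟩
  obtain ⟨R0, hR0⟩ := ((evR (ε := ε / 20) (V1 := V1) (C1 := 0) (by positivity) (by linarith) hA).and
    (eventually_ge_atTop (8 * A))).exists_forall_of_atTop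
  have hlog := (Real.tendsto_log_atTop.comp (tendsto_natCast_atTop_atTop (R := ℝ)))
  have hAr : ∀ᶠ r : ℕ in atTop, 8 * A * Real.log (r : ℝ) ≤ r := by
    have h2 : (fun y : ℝ => Real.log y) =o[atTop] fun y : ℝ => y := Real.isLittleO_log_id_atTop
    have h3 := (h2.bound (c := 1 / (8 * A)) (by positivity))
    have h4 := tendsto_natCast_atTop_atTop (R := ℝ) |>.eventually h3
    filter_upwards [h4, eventually_ge_atTop 1] with r hr hr1
    have hr1' : (1 : ℝ) ≤ r := by exact_mod_cast hr1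
    rw [Real.norm_of_nonneg (Real.log_nonneg hr1'), Real.norm_of_nonneg (by linarith), div_mul_eq_mul_div,
      one_mul, le_div_iff₀ (by positivity)] at hr
    linarith
  obtain ⟨r2, hr2⟩ := ((hlog.eventually_ge_atTop R0).and hAr).exists_forall_of_atTop
  refine ⟨max r1 r2, hr1.trans (le_max_left _ _), fun r hr V hV hRV hVA => ?_⟩
  have hr3 : 3 ≤ r := hr1.trans ((le_max_left _ _).trans hr)
  obtain ⟨hrr, hAr'⟩ := hr2 r ((le_max_right _ _).trans hr)
  simp only [Function.comp_apply] at hrr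
  obtain ⟨hR0', hRA⟩ := hR0 _ hrr
  obtain ⟨R, hR⟩ : ∃ R : ℝ, R = Real.log r := ⟨_, rfl⟩
  obtain ⟨G, hG⟩ : ∃ G : ℝ, G = Real.pi ^ 2 * V ^ 2 / (2 * R) := ⟨_, rfl⟩
  obtain ⟨g1, g2, g3, -, g5, -, g7, -, -, -⟩ := hR0' V hV hRV hVA G (by rw [hG, hR])
  have hLTr := hLT r ((le_max_left _ _).trans hr)
  clear hR0 hR0' hr2 hLT
  rw [← hR] at hRV hVA g1 g5 hRA hAr' ⊢
  rw [← hG]
  have hVV0 : V0 ≤ V := (le_max_left _ _).trans (hV1 ▸ g2)
  have hVε : 2 / ε4 ≤ V := (le_max_right _ _).trans (hV1 ▸ g2)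
  have hVge1 : 1 ≤ V := hV0.trans hVV0
  have hR1 : 1 ≤ R := by
    refine le_trans ?_ g1
    rw [le_div_iff₀ (by positivity)]
    linarith only [hε1]
  have hεV : 1 ≤ ε4 / 2 * V := by
    rw [div_le_iff₀ hε40] at hVε
    linarith only [hVε]
  have hrpos : (0 : ℝ) < r := by linarith only [hAr', mul_pos (by linarith only [hA] : (0 : ℝ) < 8 * A) (by linarith only [hR1] : 0 < R)]
  have hVr : 8 * V ≤ r := by linarith only [hVA, hAr']
  -- the threshold
  obtain ⟨V2, hV2⟩ : ∃ V2 : ℝ, V2 = (1 + 2 * ε4) * V := ⟨_, rfl⟩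
  have hV20 : 0 < V2 := by rw [hV2]; positivity
  have hV2V : V ≤ V2 := by rw [hV2]; nlinarith only [hε40, hV]
  have hV2V' : V2 ≤ 2 * V := by rw [hV2]; nlinarith only [hε41, hV]
  have hRV2 : R * Real.log R ≤ ε / 4 * V2 ^ 2 := by
    refine hRV.trans ?_
    have h1 : V ^ 2 ≤ V2 ^ 2 := by
      apply pow_le_pow_left₀ hV.le hV2V
    have h2 := mul_le_mul_of_nonneg_left h1 (by positivity : 0 ≤ ε / 4)
    have h3 : 0 ≤ ε * V ^ 2 := by positivity
    linarith only [h2, h3]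
  have hV2A : V2 ≤ 2 * A * R := by linarith only [hV2V', hVA]
  rw [hR] at hRV2 hV2A
  obtain ⟨T1, hT1, hU1⟩ := hLTr V2 hV20 hRV2 hV2A (r + V2) (by linarith only [hV20, hrpos])
    (by linarith only [hVr, hV2V', hrpos, hV])
  obtain ⟨T2, hT2, hU2⟩ := hLTr V2 hV20 hRV2 hV2A (r - V2 + 1) (by linarith only [hVr, hV2V', hrpos, hV])
    (by linarith only [hVr, hV2V', hrpos, hVge1, hV20])
  rw [← hR] at hU1 hU2
  obtain ⟨T3, hT3, hU3⟩ := hSM V hVV0
  obtain ⟨T4, hT4⟩ := (Real.tendsto_log_atTop.eventually_ge_atTop (48 * ((r : ℝ) + V + 1) + 8)).exists_forall_of_atTop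
  obtain ⟨X, hX⟩ : ∃ X : ℝ, X = Real.exp (-((1 + ε) * G)) := ⟨_, rfl⟩
  have hX0 : 0 < X := by rw [hX]; exact Real.exp_pos _
  rw [← hX]
  refine ⟨3 * max (max (max T1 T2) (max T3 T4)) (max (V / X) 500), ?_, fun x hx S hS => ?_⟩
  · have : (500 : ℝ) ≤ max (max (max T1 T2) (max T3 T4)) (max (V / X) 500) :=
      (le_max_right _ _).trans (le_max_right _ _)
    linarith
  obtain ⟨T, hT⟩ : ∃ T : ℝ, T = 1 / 3 * x := ⟨_, rfl⟩
  have hMx : max (max (max T1 T2) (max T3 T4)) (max (V / X) 500) ≤ T := by linarith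
  have t1 : T1 ≤ T := ((le_max_left _ _).trans ((le_max_left _ _).trans (le_max_left _ _))).trans hMx
  have t2 : T2 ≤ T := ((le_max_right _ _).trans ((le_max_left _ _).trans (le_max_left _ _))).trans hMx
  have t3 : T3 ≤ T := ((le_max_left _ _).trans ((le_max_right _ _).trans (le_max_left _ _))).trans hMx
  have t4 : T4 ≤ T := ((le_max_right _ _).trans ((le_max_right _ _).trans (le_max_left _ _))).trans hMx
  have t5 : V / X ≤ T := ((le_max_left _ _).trans (le_max_right _ _)).trans hMx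
  have t6 : 500 ≤ T := ((le_max_right _ _).trans (le_max_right _ _)).trans hMx
  clear hMx hx
  have hx' : x = 3 * T := by rw [hT]; ring
  have hT0 : 0 < T := by linarith only [t6]
  have hT1' : 1 < T := by linarith only [t6]
  obtain ⟨L, hL⟩ : ∃ L : ℝ, L = Real.log T := ⟨_, rfl⟩
  have hLr : 48 * ((r : ℝ) + V + 1) + 8 ≤ L := by rw [hL]; exact hT4 T t4
  have hL8 : 8 ≤ L := by linarith only [hLr, hrpos, hV]
  have hL0 : 0 < L := by linarith only [hL8]
  have hUU1 := (hU1 T t1).2 (-1) (by norm_num)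
  have hUU2 := (hU2 T t2).2 1 (by norm_num)
  have hUU3 := hU3 T t3
  clear hU1 hU2 hU3 hT4
  obtain ⟨W3, hW3⟩ : ∃ W : Set ℝ, W = {t | t ∈ Icc T (2 * T) ∧ ε4 / 2 * V < |dv T (ε4 * V) t|} := ⟨_, rfl⟩
  rw [← hW3] at hUU3
  obtain ⟨e, he⟩ : ∃ e : ℝ, e = ε4 * V * (2 * Real.pi / L) := ⟨_, rfl⟩
  have he0 : 0 < e := by rw [he]; positivity
  have heL : e * L = ε4 * V * (2 * Real.pi) := by rw [he]; field_simp
  have heV : e * L ≤ V := by
    rw [heL]
    have h1 : ε4 * (2 * Real.pi) ≤ 1 := by nlinarith only [hε40, hε41, hpi4, hpi]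
    have h2 := mul_le_mul_of_nonneg_right h1 hV.le
    linarith only [h2]
  have heT : e ≤ T * X := by
    rw [div_le_iff₀ hX0] at t5
    refine le_trans ?_ t5
    refine le_trans ?_ heV
    exact le_mul_of_one_le_right he0.le (by linarith only [hL8])
  have e1 : (1 + 2 * ε4) ^ 2 * G = Real.pi ^ 2 * V2 ^ 2 / (2 * R) := by
    rw [hG, hV2]; ring
  rw [← e1] at hUU1 hUU2
  -- the set
  obtain ⟨B, hBv, hBI, hB⟩ : ∃ B : Set ℝ, T * Real.exp (-((1 + ε / 4) * ((1 + 2 * ε4) ^ 2 * G))) ≤ volume.real B ∧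
      (∀ t ∈ B, t ∈ Icc T (2 * T)) ∧ ∀ t ∈ B, t ∉ W3 → t ≤ 2 * T - e → NZ t + 1 ∈ S ∧ t ≤ ord (NZ t + 1) ∧ ord (NZ t + 1) ≤ t + e := by
    have key : ∀ t : ℝ, t ∈ Icc T (2 * T) → t ∉ W3 → t ≤ 2 * T - e →
        t < ord (NZ t + 1) ∧ ord (NZ t + 1) ≤ t + e ∧ ord (NZ t + 1) < x ∧
        (V2 ≤ -1 * dv T (r + V2) t → V ≤ SS r (NZ t + 1) - r) ∧
        (V2 ≤ 1 * dv T (r - V2 + 1) t → SS r (NZ t + 1) - r ≤ -V) := by
      intro t htI h3 hte
      rw [hW3] at h3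
      have h4 : |dv T (ε4 * V) t| ≤ ε4 / 2 * V := by
        by_contra hcon
        push Not at hcon
        exact h3 ⟨htI, hcon⟩
      obtain ⟨b1, b2, b3, b4⟩ := detL (T := T) (t := t) (V := V) (ε4 := ε4) (n := NZ t + 1) (r := r) hT1' rfl h4 hεV
        (by omega)
      rw [← hL, ← he] at b2
      rw [← hV2] at b3 b4
      obtain ⟨c1, c2⟩ := ffL (T := T) (V := V) (n := NZ t + 1) (r := r) (by linarith only [t6]) (by omega)
        (by linarith only [b1, htI.1]) (by linarith only [b2, hte]) hV.le (by rw [← hL]; linarith only [hLr])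
      exact ⟨b1, b2, by linarith only [b2, hte, hx', hT0], fun h => c1 (b3 h), fun h => c2 (b4 h)⟩
    rcases hS with hS | hS
    · refine ⟨_, hUU1, fun t ht => ht.1, fun t ht h3 hte => ?_⟩
      obtain ⟨k1, k2, k3, k4, -⟩ := key t ht.1 h3 hte
      exact ⟨hS _ (by omega) k3 (k4 ht.2), k1.le, k2⟩
    · refine ⟨_, hUU2, fun t ht => ht.1, fun t ht h3 hte => ?_⟩
      obtain ⟨k1, k2, k3, -, k5⟩ := key t ht.1 h3 hte
      exact ⟨hS _ (by omega) k3 (k5 ht.2), k1.le, k2⟩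
  have hcov : B ⊆ (⋃ n ∈ S, Icc (ord n - e) (ord n)) ∪ (W3 ∪ Icc (2 * T - e) (2 * T)) := by
    intro t ht
    by_cases h3 : t ∈ W3
    · exact Or.inr (Or.inl h3)
    by_cases h4 : t ≤ 2 * T - e
    · left
      obtain ⟨k1, k2, k3⟩ := hB t ht h3 h4
      exact mem_iUnion₂.2 ⟨_, k1, by linarith only [k3], k2⟩
    · right; right
      push Not at h4
      exact ⟨h4.le, (hBI t ht).2⟩
  have hW3t : volume W3 < ⊤ := by
    have : W3 ⊆ Icc T (2 * T) := by rw [hW3]; exact fun t ht => ht.1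
    exact (measure_mono this).trans_lt measure_Icc_lt_top
  have hcovt : volume ((⋃ n ∈ S, Icc (ord n - e) (ord n)) ∪ (W3 ∪ Icc (2 * T - e) (2 * T))) ≠ ⊤ := by
    refine (measure_union_lt_top ?_ (measure_union_lt_top hW3t measure_Icc_lt_top)).ne
    exact measure_biUnion_lt_top S.finite_toSet (fun n _ => measure_Icc_lt_top)
  have hmain : T * Real.exp (-((1 + ε / 4) * ((1 + 2 * ε4) ^ 2 * G))) ≤
      S.card * e + T * Real.exp (-(Kc * V)) + e := by
    have a1 := measureReal_mono hcov hcovt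
    have a2 := measureReal_union_le (μ := volume) (⋃ n ∈ S, Icc (ord n - e) (ord n)) (W3 ∪ Icc (2 * T - e) (2 * T))
    have a3 := measureReal_union_le (μ := volume) W3 (Icc (2 * T - e) (2 * T))
    have a4 := measureReal_biUnion_finset_le (μ := volume) S (fun n => Icc (ord n - e) (ord n))
    have a5 : ∑ n ∈ S, volume.real (Icc (ord n - e) (ord n)) = S.card * e := by
      rw [Finset.sum_congr rfl (fun n _ => show volume.real (Icc (ord n - e) (ord n)) = e by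
        rw [Real.volume_real_Icc_of_le (by linarith only [he0])]; ring), Finset.sum_const, nsmul_eq_mul]
    have a6 : volume.real (Icc (2 * T - e) (2 * T)) = e := by
      rw [Real.volume_real_Icc_of_le (by linarith only [he0])]; ring
    rw [a5] at a4
    rw [a6] at a3
    linarith only [hBv, a1, a2, a3, a4, hUU3]
  have hfin := numK (N := S.card) hε hε1 hA hVge1 (by linarith only [g3]) (by linarith only [g7]) hKc hε4 (by
      have h1 : 8 * V ≤ 8 * A * R := by linarith only [hVA]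
      have h3 : 8 * A * R ≤ Real.exp (ε / 20 / 2 * G) * Real.exp (ε / 20 / 2 * G) := by
        have h4 : 8 * A ≤ Real.exp (ε / 20 / 2 * G) := by linarith only [g5, hRA, hR1]
        have h5 : R ≤ Real.exp (ε / 20 / 2 * G) := by linarith only [g5, hR1]
        exact mul_le_mul h4 h5 (by linarith only [hR1]) (Real.exp_pos _).le
      refine (h1.trans h3).trans ?_
      rw [← Real.exp_add]
      apply Real.exp_le_exp.2
      have : 0 ≤ ε * G := mul_nonneg hε.le (by linarith only [g3])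
      linarith only [this]) hX hT0 heT hmain
  have h7 : T * (X * (6 * V)) * L ≤ S.card * V := by
    refine (mul_le_mul_of_nonneg_right hfin hL0.le).trans ?_
    rw [mul_assoc]
    exact mul_le_mul_of_nonneg_left heV (Nat.cast_nonneg _)
  have h8 : 6 * (T * X * L) ≤ S.card := by
    have e2 : T * (X * (6 * V)) * L = 6 * (T * X * L) * V := by ring
    rw [e2] at h7
    exact le_of_mul_le_mul_right h7 hV
  refine le_trans ?_ h8
  have hlx : Real.log x ≤ 2 * L := by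
    have : 2 * L = Real.log (T ^ 2) := by rw [Real.log_pow, hL]; push_cast; ring
    rw [this]
    apply Real.log_le_log (by linarith only [hx', hT0])
    rw [hx']
    nlinarith only [t6]
  rw [hx'] at hlx ⊢
  calc X * (3 * T * Real.log (3 * T)) ≤ X * (3 * T * (2 * L)) := by
        apply mul_le_mul_of_nonneg_left _ hX0.le
        exact mul_le_mul_of_nonneg_left hlx (by linarith only [hT0])
    _ = _ := by ring

end

end Pool.Agent.T6.H5.TL
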