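import Pool.Agent.T6.H5.TL.K
import Pool.Agent.T6.H5.MX.LL

/-! # The two tails of gap sums: all zeros -/

set_option autoImplicit false

namespace Pool.Agent.T6.H5.TL

open Filter Topology MeasureTheory Set
open SG (ord NZ)
open SP (RHs)
open Pool.Agent.R320.VQ (split23 N_x)
open Pool.Agent.R320.CL (SS)

noncomputable section

open Classical in
/-- the upper bound, all zeros, for one threshold -/
lemma upA {P : ℕ → Prop} {X C2 C3 T3 x0 : ℝ} (hX : 0 < X) (hC2 : 1 ≤ C2) (hC3 : 0 < C3) (hT3 : 3 ≤ T3)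
    (hx0 : 100 ≤ x0) {N1 : ℕ} (hN1 : 1 ≤ N1)
    (hNx : ∀ N : ℕ, N1 ≤ N → ord N * Real.log (ord N) ≤ C2 * N ∧ (N : ℝ) ≤ C2 * (ord N * Real.log (ord N)))
    (hup : ∀ T : ℝ, T3 ≤ T → (NZ (2 * T) : ℝ) ≤ C3 * (T * Real.log T))
    (hblk : ∀ x : ℝ, x0 ≤ x → ∀ S : Finset ℕ, (∀ n ∈ S, NZ (2 / 3 * x) < n ∧ n ≤ NZ x ∧ P n) →
      (S.card : ℝ) ≤ X * (x * Real.log x)) :
    ∃ N0 : ℕ, ∀ N : ℕ, N0 ≤ N → (((Finset.Icc 1 N).filter fun n => P n).card : ℝ) ≤ 4 * C2 * X * N := by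
  obtain ⟨K, hK⟩ := exists_pow_lt_of_lt_one (show 0 < X / C3 by positivity) (show (2 / 3 : ℝ) < 1 by norm_num)
  have hKp : 0 < (2 / 3 : ℝ) ^ K := by positivity
  have ev := SG.ord_tendsto.eventually_ge_atTop (max (x0 / (2 / 3 : ℝ) ^ K) (max (2 * T3 / (2 / 3 : ℝ) ^ K) 10))
  obtain ⟨N2, hN2⟩ := ev.exists_forall_of_atTop
  refine ⟨max N1 N2, fun N hN => ?_⟩
  obtain ⟨hxN, -⟩ := hNx N ((le_max_left _ _).trans hN)
  have hx := hN2 N ((le_max_right _ _).trans hN)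
  have hN0 : 1 ≤ N := (hN1.trans (le_max_left _ _)).trans hN
  have hNr : (0 : ℝ) < N := by exact_mod_cast hN0
  obtain ⟨x, hxd⟩ : ∃ x : ℝ, x = ord N := ⟨_, rfl⟩
  rw [← hxd] at hxN hx
  have h1 : x0 / (2 / 3 : ℝ) ^ K ≤ x := (le_max_left _ _).trans hx
  have h2 : 2 * T3 / (2 / 3 : ℝ) ^ K ≤ x := ((le_max_left _ _).trans (le_max_right _ _)).trans hx
  have h3 : 10 ≤ x := ((le_max_right _ _).trans (le_max_right _ _)).trans hx
  rw [div_le_iff₀ hKp] at h1 h2
  have hlx : 0 < Real.log x := Real.log_pos (by linarith)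
  have hsub : (((Finset.Icc 1 N).filter fun n => P n).card : ℝ) ≤
      (((Finset.Icc 1 (NZ x)).filter fun n => P n).card : ℝ) := by
    have : N ≤ NZ x := by rw [hxd]; exact SG.le_NZ_ord hN0
    exact_mod_cast Finset.card_le_card (Finset.filter_subset_filter _ (Finset.Icc_subset_Icc le_rfl this))
  have hsp := split23 P x K
  refine hsub.trans (hsp.trans ?_)
  have hle : ∀ k : ℕ, k ≤ K → (2 / 3 : ℝ) ^ K ≤ (2 / 3 : ℝ) ^ k := fun k hk =>
    pow_le_pow_of_le_one (by norm_num) (by norm_num) hk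
  have hsmall : (((Finset.Icc 1 (NZ ((2 / 3) ^ K * x))).filter fun n => P n).card : ℝ) ≤ C2 * X * N := by
    have a1 : (((Finset.Icc 1 (NZ ((2 / 3) ^ K * x))).filter fun n => P n).card : ℝ) ≤
        NZ ((2 / 3) ^ K * x) := by
      have := Finset.card_filter_le (Finset.Icc 1 (NZ ((2 / 3) ^ K * x))) (fun n => P n)
      rw [Nat.card_Icc, Nat.add_sub_cancel] at this
      exact_mod_cast this
    have a2 := hup ((2 / 3) ^ K * x / 2) (by linarith)
    have e : 2 * ((2 / 3) ^ K * x / 2) = (2 / 3) ^ K * x := by ring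
    rw [e] at a2
    have a3 : Real.log ((2 / 3) ^ K * x / 2) ≤ Real.log x := by
      apply Real.log_le_log (by positivity)
      have : (2 / 3 : ℝ) ^ K ≤ 1 := pow_le_one₀ (by norm_num) (by norm_num)
      nlinarith
    have a4 : C3 * (2 / 3 : ℝ) ^ K ≤ X := by
      have := (lt_div_iff₀ hC3).1 hK
      linarith
    calc _ ≤ _ := a1
      _ ≤ _ := a2
      _ ≤ C3 * ((2 / 3) ^ K * x / 2 * Real.log x) := by gcongr
      _ = 1 / 2 * (C3 * (2 / 3) ^ K) * (x * Real.log x) := by ring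
      _ ≤ 1 / 2 * X * (C2 * N) := by gcongr
      _ ≤ _ := by
        have : 0 ≤ X * (C2 * N) := by positivity
        linarith
  have hsum : ∑ k ∈ Finset.range K,
        (((Finset.Ioc (NZ (2 / 3 * ((2 / 3) ^ k * x))) (NZ ((2 / 3) ^ k * x))).filter fun n => P n).card : ℝ) ≤
        3 * C2 * X * N := by
    have b1 : ∀ k ∈ Finset.range K,
        (((Finset.Ioc (NZ (2 / 3 * ((2 / 3) ^ k * x))) (NZ ((2 / 3) ^ k * x))).filter fun n => P n).card : ℝ) ≤
        X * (x * Real.log x) * (2 / 3) ^ k := by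
      intro k hk
      have hk' := hle k (Finset.mem_range.1 hk).le
      have c1 : x0 ≤ (2 / 3) ^ k * x := h1.trans (by rw [mul_comm]; gcongr)
      have c2 := hblk ((2 / 3) ^ k * x) c1 ((Finset.Ioc (NZ (2 / 3 * ((2 / 3) ^ k * x))) (NZ ((2 / 3) ^ k * x))).filter
        fun n => P n) (by
          intro n hn
          rw [Finset.mem_filter, Finset.mem_Ioc] at hn
          exact ⟨hn.1.1, hn.1.2, hn.2⟩)
      refine c2.trans ?_
      have c3 : Real.log ((2 / 3) ^ k * x) ≤ Real.log x := by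
        apply Real.log_le_log (by positivity)
        have : (2 / 3 : ℝ) ^ k ≤ 1 := pow_le_one₀ (by norm_num) (by norm_num)
        nlinarith
      calc X * ((2 / 3) ^ k * x * Real.log ((2 / 3) ^ k * x)) ≤ X * ((2 / 3) ^ k * x * Real.log x) := by gcongr
        _ = _ := by ring
    refine (Finset.sum_le_sum b1).trans ?_
    rw [← Finset.mul_sum]
    have b2 : ∑ k ∈ Finset.range K, (2 / 3 : ℝ) ^ k ≤ 3 := by
      rw [geom_sum_eq (by norm_num)]
      have e : ((2 / 3 : ℝ) ^ K - 1) / (2 / 3 - 1) = 3 * (1 - (2 / 3 : ℝ) ^ K) := by ring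
      rw [e]
      linarith
    calc X * (x * Real.log x) * ∑ k ∈ Finset.range K, (2 / 3 : ℝ) ^ k ≤ X * (C2 * N) * 3 := by gcongr
      _ = _ := by ring
  linarith

open Classical in
/-- **the two tails of the sums of gaps** -/
theorem allT (hRH : RHs) {ε A : ℝ} (hε : 0 < ε) (hε1 : ε ≤ 1 / 2) (hA : 1 ≤ A) :
    ∃ r0 : ℕ, 3 ≤ r0 ∧ ∀ r : ℕ, r0 ≤ r → ∀ V : ℝ, 0 < V →
    40 / ε * (Real.log r * Real.log (Real.log r)) ≤ V ^ 2 → V ≤ A * Real.log r →
    ∃ N0 : ℕ, ∀ N : ℕ, N0 ≤ N →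
    (((Finset.Icc 1 N).filter fun n => V ≤ |SS r n - r|).card : ℝ) ≤
      Real.exp (-((1 - ε) * (Real.pi ^ 2 * V ^ 2 / (2 * Real.log r)))) * N ∧
    Real.exp (-((1 + ε) * (Real.pi ^ 2 * V ^ 2 / (2 * Real.log r)))) * N ≤
      (((Finset.Icc 1 N).filter fun n => V ≤ SS r n - r).card : ℝ) ∧
    Real.exp (-((1 + ε) * (Real.pi ^ 2 * V ^ 2 / (2 * Real.log r)))) * N ≤
      (((Finset.Icc 1 N).filter fun n => SS r n - r ≤ -V).card : ℝ) := by
  obtain ⟨C2, hC2, N1, hN1, hNx⟩ := N_x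
  obtain ⟨C3, T3, hC3, hT3, hup⟩ := LG.GapAux.NZ_up
  obtain ⟨r1, hr1, hU⟩ := blkU hRH (ε := ε / 2) (A := A) (by positivity) (by linarith) hA
  obtain ⟨r2, hr2, hL⟩ := lowN hRH (ε := ε / 2) (A := A) (by positivity) (by linarith) hA
  have hlog := (Real.tendsto_log_atTop.comp (tendsto_natCast_atTop_atTop (R := ℝ)))
  obtain ⟨R0, hR0⟩ := ((evR (ε := ε / 40) (V1 := 1) (C1 := 0) (by positivity) (by linarith) hA).and
    (eventually_ge_atTop (4 * C2))).exists_forall_of_atTop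
  obtain ⟨r3, hr3⟩ := (hlog.eventually_ge_atTop R0).exists_forall_of_atTop
  refine ⟨max (max r1 r2) r3, hr1.trans ((le_max_left _ _).trans (le_max_left _ _)), fun r hr V hV hRV hVA => ?_⟩
  have q1 : r1 ≤ r := ((le_max_left _ _).trans (le_max_left _ _)).trans hr
  have q2 : r2 ≤ r := ((le_max_right _ _).trans (le_max_left _ _)).trans hr
  have hrr := hr3 r ((le_max_right _ _).trans hr)
  simp only [Function.comp_apply] at hrr
  obtain ⟨hR0', hRA⟩ := hR0 _ hrr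
  have hRV' : Real.log r * Real.log (Real.log r) ≤ ε / 2 / 20 * V ^ 2 := by
    have h1 := mul_le_mul_of_nonneg_left hRV (by positivity : 0 ≤ ε / 40)
    have e : ε / 40 * (40 / ε * (Real.log r * Real.log (Real.log r))) = Real.log r * Real.log (Real.log r) := by
      field_simp
    rw [e] at h1
    linarith
  have hUr := hU r q1 V hV hRV' hVA
  have hLr := hL r q2 V hV hRV' hVA
  obtain ⟨R, hR⟩ : ∃ R : ℝ, R = Real.log r := ⟨_, rfl⟩
  obtain ⟨G, hG⟩ : ∃ G : ℝ, G = Real.pi ^ 2 * V ^ 2 / (2 * R) := ⟨_, rfl⟩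
  obtain ⟨g1, g2, g3, -, g5, -, g7, -, -, -⟩ := hR0' V hV (by linarith) hVA G (by rw [hG, hR])
  rw [← hR] at hUr hLr ⊢
  rw [← hG] at hUr hLr ⊢
  rw [← hR] at g5 hRA
  have h4C : 4 * C2 ≤ Real.exp (ε / 2 * G) := by
    have h1 : ε / 40 / 2 * G ≤ ε / 2 * G := by
      have : 0 ≤ ε * G := mul_nonneg hε.le (by linarith)
      linarith
    have h2 := Real.exp_le_exp.2 h1
    linarith
  obtain ⟨x1, hx1, hblk⟩ := hUr
  obtain ⟨x2, hx2, hlow⟩ := hLr
  obtain ⟨N2, hN2⟩ := upA (P := fun n => V ≤ |SS r n - r|) (Real.exp_pos _) hC2 hC3 hT3 hx1 hN1 hNx hup hblk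
  obtain ⟨N3, hN3⟩ := (SG.ord_tendsto.eventually_ge_atTop x2).exists_forall_of_atTop
  refine ⟨max N1 (max N2 N3), fun N hN => ?_⟩
  have n1 : N1 ≤ N := (le_max_left _ _).trans hN
  have n2 : N2 ≤ N := ((le_max_left _ _).trans (le_max_right _ _)).trans hN
  have n3 : N3 ≤ N := ((le_max_right _ _).trans (le_max_right _ _)).trans hN
  have hN1' : 1 ≤ N := hN1.trans n1
  have hNr : (0 : ℝ) < N := by exact_mod_cast hN1'
  have hx := hN3 N n3
  obtain ⟨-, hNx2⟩ := hNx N n1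
  have hmem : ∀ n : ℕ, 1 ≤ n → ord n < ord N → n ∈ Finset.Icc 1 N := by
    intro n hn1 hn
    rw [Finset.mem_Icc]
    refine ⟨hn1, ?_⟩
    by_contra hcon
    push Not at hcon
    have h1 : ord N ≤ ord n := SG.ord_mono hN1' hcon.le
    linarith
  have lowfin : ∀ S : Finset ℕ, ((∀ n : ℕ, 1 ≤ n → ord n < ord N → V ≤ SS r n - r → n ∈ S) ∨
      (∀ n : ℕ, 1 ≤ n → ord n < ord N → SS r n - r ≤ -V → n ∈ S)) →
      Real.exp (-((1 + ε) * G)) * N ≤ S.card := by
    intro S hS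
    refine le_trans ?_ (hlow (ord N) hx S hS)
    have e1 : Real.exp (-((1 + ε) * G)) * C2 ≤ Real.exp (-((1 + ε / 2) * G)) := by
      calc Real.exp (-((1 + ε) * G)) * C2 ≤ Real.exp (-((1 + ε) * G)) * Real.exp (ε / 2 * G) := by
            apply mul_le_mul_of_nonneg_left _ (Real.exp_pos _).le
            linarith
        _ = _ := by
            rw [← Real.exp_add]
            congr 1
            ring
    have h0 : 0 ≤ ord N * Real.log (ord N) := by
      by_contra hcon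
      push Not at hcon
      have : C2 * (ord N * Real.log (ord N)) < 0 := by nlinarith
      linarith
    calc Real.exp (-((1 + ε) * G)) * N ≤ Real.exp (-((1 + ε) * G)) * (C2 * (ord N * Real.log (ord N))) := by gcongr
      _ = Real.exp (-((1 + ε) * G)) * C2 * (ord N * Real.log (ord N)) := by ring
      _ ≤ _ := mul_le_mul_of_nonneg_right e1 h0
  refine ⟨?_, ?_, ?_⟩
  · refine (hN2 N n2).trans ?_
    apply mul_le_mul_of_nonneg_right _ hNr.le
    calc 4 * C2 * Real.exp (-((1 - ε / 2) * G)) ≤ Real.exp (ε / 2 * G) * Real.exp (-((1 - ε / 2) * G)) :=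
          mul_le_mul_of_nonneg_right h4C (Real.exp_pos _).le
      _ = _ := by
          rw [← Real.exp_add]
          congr 1
          ring
  · exact lowfin _ (Or.inl fun n a1 a2 a3 => Finset.mem_filter.2 ⟨hmem n a1 a2, a3⟩)
  · exact lowfin _ (Or.inr fun n a1 a2 a3 => Finset.mem_filter.2 ⟨hmem n a1 a2, a3⟩)

end

end Pool.Agent.T6.H5.TL
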